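import Mathlib

set_option autoImplicit false

/-!
# Hamming distance of the parity words of two trajectories of `T_{q,k}`

`T x = x / 2` for even `x` and `T x = (q x + k) / 2` for odd `x`, where `q ≥ 3` and `k` are odd.
-/

open Finset

namespace Pool.Agent.Y780.Cz

/-- The map `T_{q,k}`. -/
def T (q k x : ℤ) : ℤ := if x % 2 = 0 then x / 2 else (q * x + k) / 2

/-- The number of `i < n` at which the `i`-th iterates of `x` and `y` have different parities. -/
def dis (q k x y : ℤ) (n : ℕ) : ℕ :=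
  ∑ i ∈ range n, if (T q k)^[i] x % 2 = (T q k)^[i] y % 2 then 0 else 1

variable {q k : ℤ}

lemma two_mul_even (x : ℤ) (h : x % 2 = 0) : 2 * T q k x = x := by
  unfold T; rw [if_pos h]; omega

lemma two_mul_odd (hq : q % 2 = 1) (hk : k % 2 = 1) (x : ℤ) (h : ¬ x % 2 = 0) :
    2 * T q k x = q * x + k := by
  unfold T; rw [if_neg h]
  have h1 : x % 2 = 1 := by omega
  have h2 : (q * x + k) % 2 = 0 := by
    rw [Int.add_emod, Int.mul_emod, hq, hk, h1]; norm_num
  omega

/-- If the parities agree for `g` steps, then `2 ^ g` divides the difference. -/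
lemma dvd_sub_of_agree (hq : q % 2 = 1) (hk : k % 2 = 1) (g : ℕ) :
    ∀ x y : ℤ, (∀ i < g, (T q k)^[i] x % 2 = (T q k)^[i] y % 2) → (2 : ℤ) ^ g ∣ x - y := by
  induction g with
  | zero => intro x y _; simp
  | succ g ih =>
    intro x y h
    have h0 : x % 2 = y % 2 := by simpa using h 0 (by omega)
    have h1 : (2 : ℤ) ^ g ∣ T q k x - T q k y := by
      apply ih
      intro i hi
      have := h (i + 1) (by omega)
      simpa [Function.iterate_succ_apply] using this
    have h2 : (2 : ℤ) ^ (g + 1) ∣ 2 * (T q k x - T q k y) := by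
      rw [pow_succ, mul_comm]; exact mul_dvd_mul_left 2 h1
    by_cases hx : x % 2 = 0
    · have e : 2 * (T q k x - T q k y) = x - y := by
        rw [mul_sub, two_mul_even x hx, two_mul_even y (by omega)]
      rwa [e] at h2
    · have e : 2 * (T q k x - T q k y) = q * (x - y) := by
        rw [mul_sub, two_mul_odd hq hk x hx, two_mul_odd hq hk y (by omega)]; ring
      rw [e] at h2
      refine IsCoprime.dvd_of_dvd_mul_left ?_ h2
      apply IsCoprime.pow_left
      rw [Int.isCoprime_iff_gcd_eq_one]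
      have : Int.gcd 2 q = 1 := by
        have h3 : Int.gcd 2 q ∣ 2 := by exact_mod_cast Int.gcd_dvd_left (a := 2) (b := q)
        have h4 : ((Int.gcd 2 q : ℕ) : ℤ) ∣ q := Int.gcd_dvd_right (a := 2) (b := q)
        rcases (Nat.dvd_prime Nat.prime_two).1 h3 with h5 | h5
        · exact h5
        · rw [h5] at h4; omega
      exact this

/-- The size of a pair. -/
noncomputable def mx (k x y : ℤ) : ℝ := max |(x : ℝ)| |(y : ℝ)| + |(k : ℝ)|

lemma one_le_abs_k (hk : k % 2 = 1) : (1 : ℝ) ≤ |(k : ℝ)| := by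
  have h1 : k ≠ 0 := by rintro rfl; simp at hk
  have h2 : 1 ≤ |k| := Int.one_le_abs h1
  exact_mod_cast h2

lemma one_le_mx (hk : k % 2 = 1) (x y : ℤ) : 1 ≤ mx k x y := by
  unfold mx
  have h1 := one_le_abs_k hk
  have h2 : 0 ≤ max |(x : ℝ)| |(y : ℝ)| := le_max_of_le_left (abs_nonneg _)
  linarith

lemma abs_T_le (hq : q % 2 = 1) (hq3 : 3 ≤ q) (hk : k % 2 = 1) (x : ℤ) :
    |(T q k x : ℝ)| + |(k : ℝ)| ≤ q / 2 * (|(x : ℝ)| + |(k : ℝ)|) := by
  have hq3' : (3 : ℝ) ≤ q := by exact_mod_cast hq3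
  have hx0 := abs_nonneg (x : ℝ)
  have hk0 := abs_nonneg (k : ℝ)
  by_cases hx : x % 2 = 0
  · have h1 : (2 : ℝ) * T q k x = x := by exact_mod_cast two_mul_even (q := q) (k := k) x hx
    have h2 : |(x : ℝ)| = 2 * |(T q k x : ℝ)| := by
      rw [← h1, abs_mul]; norm_num
    nlinarith
  · have h1 : (2 : ℝ) * T q k x = q * x + k := by exact_mod_cast two_mul_odd hq hk x hx
    have h2 : 2 * |(T q k x : ℝ)| = |(q : ℝ) * x + k| := by
      rw [← h1, abs_mul]; norm_num
    have h3 : |(q : ℝ) * x + k| ≤ q * |(x : ℝ)| + |(k : ℝ)| := by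
      refine (abs_add_le _ _).trans ?_
      rw [abs_mul, abs_of_nonneg (by linarith : (0 : ℝ) ≤ q)]
    nlinarith

lemma mx_T_le (hq : q % 2 = 1) (hq3 : 3 ≤ q) (hk : k % 2 = 1) (x y : ℤ) :
    mx k (T q k x) (T q k y) ≤ q / 2 * mx k x y := by
  have hq3' : (3 : ℝ) ≤ q := by exact_mod_cast hq3
  unfold mx
  have h1 := abs_T_le hq hq3 hk x
  have h2 := abs_T_le hq hq3 hk y
  have h3 : |(x : ℝ)| ≤ max |(x : ℝ)| |(y : ℝ)| := le_max_left _ _
  have h4 : |(y : ℝ)| ≤ max |(x : ℝ)| |(y : ℝ)| := le_max_right _ _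
  rcases max_choice |(T q k x : ℝ)| |(T q k y : ℝ)| with h | h <;> rw [h] <;> nlinarith

lemma mx_iter_le (hq : q % 2 = 1) (hq3 : 3 ≤ q) (hk : k % 2 = 1) (n : ℕ) (x y : ℤ) :
    mx k ((T q k)^[n] x) ((T q k)^[n] y) ≤ (q / 2) ^ n * mx k x y := by
  have hq3' : (3 : ℝ) ≤ q := by exact_mod_cast hq3
  induction n with
  | zero => simp
  | succ n ih =>
    rw [Function.iterate_succ_apply', Function.iterate_succ_apply', pow_succ]
    refine (mx_T_le hq hq3 hk _ _).trans ?_
    have := mul_le_mul_of_nonneg_left ih (show (0 : ℝ) ≤ (q : ℝ) / 2 by positivity)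
    calc _ ≤ _ := this
      _ = _ := by ring

lemma dis_add (x y : ℤ) (a b : ℕ) :
    dis q k x y (a + b) = dis q k x y a + dis q k ((T q k)^[a] x) ((T q k)^[a] y) b := by
  unfold dis
  rw [Finset.sum_range_add]
  congr 1
  apply Finset.sum_congr rfl
  intro i _
  rw [add_comm a i, Function.iterate_add_apply, Function.iterate_add_apply]

lemma dis_mono (x y : ℤ) {a b : ℕ} (h : a ≤ b) : dis q k x y a ≤ dis q k x y b := by
  obtain ⟨c, rfl⟩ := Nat.exists_eq_add_of_le h
  rw [dis_add]; omega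

lemma dis_eq_zero (x y : ℤ) (n : ℕ) (h : ∀ i < n, (T q k)^[i] x % 2 = (T q k)^[i] y % 2) :
    dis q k x y n = 0 := by
  unfold dis
  apply Finset.sum_eq_zero
  intro i hi
  rw [if_pos (h i (Finset.mem_range.1 hi))]

lemma agree_of_dis_eq_zero (x y : ℤ) (n : ℕ) (h : dis q k x y n = 0) :
    ∀ i < n, (T q k)^[i] x % 2 = (T q k)^[i] y % 2 := by
  intro i hi
  by_contra hcon
  unfold dis at h
  rw [Finset.sum_eq_zero_iff] at h
  have := h i (Finset.mem_range.2 hi)
  rw [if_neg hcon] at this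
  omega

/-- agreement of `g` parities is only possible for large numbers -/
lemma run_le (hq : q % 2 = 1) (hk : k % 2 = 1) (g : ℕ) (x y : ℤ) (hxy : x ≠ y)
    (h : ∀ i < g, (T q k)^[i] x % 2 = (T q k)^[i] y % 2) : (g : ℝ) ≤ 1 + Real.logb 2 (mx k x y) := by
  have h1 := dvd_sub_of_agree hq hk g x y h
  have h2 : (2 : ℤ) ^ g ≤ |x - y| := by
    have h3 : x - y ≠ 0 := sub_ne_zero.2 hxy
    exact Int.le_of_dvd (abs_pos.2 h3) ((dvd_abs _ _).2 h1)
  have h4 : ((2 : ℝ) ^ g) ≤ 2 * mx k x y := by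
    have h5 : ((2 : ℝ) ^ g) ≤ |(x : ℝ) - y| := by exact_mod_cast h2
    have h6 : |(x : ℝ) - y| ≤ |(x : ℝ)| + |(y : ℝ)| := abs_sub _ _
    have h7 : |(x : ℝ)| ≤ max |(x : ℝ)| |(y : ℝ)| := le_max_left _ _
    have h8 : |(y : ℝ)| ≤ max |(x : ℝ)| |(y : ℝ)| := le_max_right _ _
    unfold mx
    have := abs_nonneg (k : ℝ)
    linarith
  have h5 := one_le_mx hk x y
  have h6 : Real.logb 2 ((2 : ℝ) ^ g) ≤ Real.logb 2 (2 * mx k x y) :=
    Real.logb_le_logb_of_le (by norm_num) (by positivity) h4
  rw [Real.logb_mul (by norm_num) (by positivity), Real.logb_self_eq_one (by norm_num),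
    Real.logb_pow, Real.logb_self_eq_one (by norm_num), mul_one] at h6
  exact h6

/-- **Counting lemma.** Two trajectories that have not met after `n` steps have parities which differ
in many places. -/
lemma count (hq : q % 2 = 1) (hq3 : 3 ≤ q) (hk : k % 2 = 1) (D : ℕ) :
    ∀ (n : ℕ) (x y : ℤ), dis q k x y n = D → (T q k)^[n] x ≠ (T q k)^[n] y →
      (n : ℝ) ≤ (2 + Real.logb 2 (mx k x y)) * ∑ j ∈ range (D + 1), Real.logb 2 q ^ j := by
  have hq3' : (3 : ℝ) ≤ q := by exact_mod_cast hq3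
  have hδ : 1 ≤ Real.logb 2 q := by
    rw [Real.le_logb_iff_rpow_le (by norm_num) (by linarith), Real.rpow_one]; linarith
  induction D with
  | zero =>
    intro n x y hD hne
    have hxy : x ≠ y := by rintro rfl; exact hne rfl
    have h1 := run_le hq hk n x y hxy (agree_of_dis_eq_zero x y n hD)
    simp only [zero_add, Finset.sum_range_one, pow_zero, mul_one]
    linarith
  | succ D ih =>
    intro n x y hD hne
    have hxy : x ≠ y := by rintro rfl; exact hne rfl
    have hex : ∃ i, i < n ∧ (T q k)^[i] x % 2 ≠ (T q k)^[i] y % 2 := by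
      by_contra hcon
      push Not at hcon
      rw [dis_eq_zero x y n hcon] at hD
      omega
    classical
    obtain ⟨g, ⟨hgn, hgd⟩, hgmin⟩ : ∃ g, (g < n ∧ (T q k)^[g] x % 2 ≠ (T q k)^[g] y % 2) ∧
        ∀ i < g, (T q k)^[i] x % 2 = (T q k)^[i] y % 2 := by
      refine ⟨Nat.find hex, Nat.find_spec hex, fun i hi => ?_⟩
      have h1 := Nat.find_min hex hi
      have h2 := (Nat.find_spec hex).1
      by_contra hcon
      exact h1 ⟨by omega, hcon⟩
    have hrun := run_le hq hk g x y hxy hgmin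
    obtain ⟨n', hn'⟩ : ∃ n', n = (g + 1) + n' := ⟨n - (g + 1), by omega⟩
    have hd1 : dis q k x y (g + 1) = 1 := by
      rw [dis_add, dis_eq_zero x y g hgmin, zero_add]
      unfold dis
      rw [Finset.sum_range_one, Function.iterate_zero, id, id, if_neg hgd]
    have hd2 : dis q k ((T q k)^[g + 1] x) ((T q k)^[g + 1] y) n' = D := by
      rw [hn', dis_add, hd1] at hD; omega
    have hne' : (T q k)^[n'] ((T q k)^[g + 1] x) ≠ (T q k)^[n'] ((T q k)^[g + 1] y) := by
      rw [← Function.iterate_add_apply, ← Function.iterate_add_apply, add_comm n', ← hn']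
      exact hne
    have h1 := ih n' _ _ hd2 hne'
    set S : ℝ := ∑ j ∈ range (D + 1), Real.logb 2 q ^ j with hS
    have hS0 : 0 ≤ S := Finset.sum_nonneg (fun j _ => by positivity)
    have hmx := mx_iter_le hq hq3 hk (g + 1) x y
    have hm1 := one_le_mx hk x y
    have hm2 := one_le_mx hk ((T q k)^[g + 1] x) ((T q k)^[g + 1] y)
    have h2 : Real.logb 2 (mx k ((T q k)^[g + 1] x) ((T q k)^[g + 1] y)) ≤
        (g + 1) * (Real.logb 2 q - 1) + Real.logb 2 (mx k x y) := by
      have h3 : Real.logb 2 (mx k ((T q k)^[g + 1] x) ((T q k)^[g + 1] y)) ≤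
          Real.logb 2 (((q : ℝ) / 2) ^ (g + 1) * mx k x y) :=
        Real.logb_le_logb_of_le (by norm_num) (by linarith) hmx
      rw [Real.logb_mul (by positivity) (by positivity), Real.logb_pow,
        Real.logb_div (by positivity) (by norm_num), Real.logb_self_eq_one (by norm_num)] at h3
      push_cast at h3
      exact h3
    have hsum : ∑ j ∈ range (D + 1 + 1), Real.logb 2 q ^ j = 1 + Real.logb 2 q * S := by
      rw [Finset.sum_range_succ', pow_zero, add_comm, hS, Finset.mul_sum]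
      congr 1
      apply Finset.sum_congr rfl
      intro j _
      ring
    rw [hsum, hn']
    push_cast
    set u : ℝ := Real.logb 2 (mx k x y) with hu
    set δ : ℝ := Real.logb 2 q with hδdef
    have h4 : (n' : ℝ) ≤ (2 + ((g + 1) * (δ - 1) + u)) * S :=
      h1.trans (mul_le_mul_of_nonneg_right (by linarith) hS0)
    have h5 : 2 + (((g : ℝ) + 1) * (δ - 1) + u) ≤ (2 + u) * δ := by nlinarith
    have h6 : (n' : ℝ) ≤ (2 + u) * δ * S := h4.trans (mul_le_mul_of_nonneg_right h5 hS0)
    nlinarith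

lemma oddodd {q X Y X' Y' K c : ℝ} (hX : 0 < X) (hY : 0 ≤ Y) (hc1 : c ≤ 1)
    (hc0 : 0 ≤ c) (hXo : q * X * c ≤ 2 * X') (hYo : 2 * Y' ≤ q * Y + K)
    (h2 : K ≤ q * X * (1 - c)) : (X' + Y') * X * c ≤ (X + Y) * X' := by
  have hA : 0 ≤ X * (1 - c) + Y := by
    have : 0 ≤ X * (1 - c) := mul_nonneg hX.le (by linarith)
    linarith
  have hXc : 0 ≤ X * c := mul_nonneg hX.le hc0
  have h3 : 2 * (Y' * (X * c)) ≤ (q * Y + K) * (X * c) := by
    have := mul_le_mul_of_nonneg_right hYo hXc
    linarith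
  have h4 : (q * X * c) * (X * (1 - c) + Y) ≤ 2 * X' * (X * (1 - c) + Y) :=
    mul_le_mul_of_nonneg_right hXo hA
  have h5 : K * (X * c) ≤ q * X * (1 - c) * (X * c) := mul_le_mul_of_nonneg_right h2 hXc
  have e : (X + Y) * X' - (X' + Y') * X * c =
      (2 * X' * (X * (1 - c) + Y) - 2 * (Y' * (X * c))) / 2 := by ring
  have h6 : 2 * (Y' * (X * c)) ≤ 2 * X' * (X * (1 - c) + Y) := by
    calc 2 * (Y' * (X * c)) ≤ (q * Y + K) * (X * c) := h3
      _ = q * Y * (X * c) + K * (X * c) := by ring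
      _ ≤ q * Y * (X * c) + q * X * (1 - c) * (X * c) := by linarith
      _ = (q * X * c) * (X * (1 - c) + Y) := by ring
      _ ≤ _ := h4
  linarith

/-- a trajectory which starts small stays small compared with a large one, up to the number of
disagreements -/
lemma compare (hq : q % 2 = 1) (hq3 : 3 ≤ q) (hk : k % 2 = 1) (p : ℕ) (hp : 1 ≤ p) (L : ℝ)
    (hL : |(k : ℝ)| * p ≤ L) (x y : ℤ) (hy : |(y : ℝ)| ≤ L) (t : ℕ)
    (hx : ∀ i < t, L < |((T q k)^[i] x : ℝ)|) :
    0 < t → ∀ i ≤ t, (|((T q k)^[i] x : ℝ)| + |((T q k)^[i] y : ℝ)|) * (1 - 1 / (q * p)) ^ i ≤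
      2 * (q : ℝ) ^ dis q k x y i * |((T q k)^[i] x : ℝ)| := by
  intro ht i
  have hq3' : (3 : ℝ) ≤ q := by exact_mod_cast hq3
  have hpR : (1 : ℝ) ≤ p := by exact_mod_cast hp
  have hk1 := one_le_abs_k hk
  set c : ℝ := 1 - 1 / (q * p) with hc
  have hqp : (3 : ℝ) ≤ q * p := by nlinarith
  have hc1 : c ≤ 1 := by
    have : (0 : ℝ) ≤ 1 / (q * p) := by positivity
    linarith
  have hc0 : 2 / 3 ≤ c := by
    have : 1 / ((q : ℝ) * p) ≤ 1 / 3 := one_div_le_one_div_of_le (by norm_num) hqp
    linarith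
  induction i with
  | zero =>
    intro _
    have h0 := hx 0 ht
    have e : dis q k x y 0 = 0 := by unfold dis; simp
    rw [e]
    simp only [Function.iterate_zero, id, pow_zero, mul_one] at *
    linarith
  | succ i ih =>
    intro hi
    have h1 := ih (by omega)
    have hxi := hx i (by omega)
    have hdis : dis q k x y (i + 1) = dis q k x y i +
        if (T q k)^[i] x % 2 = (T q k)^[i] y % 2 then 0 else 1 := by
      unfold dis; rw [Finset.sum_range_succ]
    rw [hdis, Function.iterate_succ_apply', Function.iterate_succ_apply']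
    set a := (T q k)^[i] x with ha
    set b := (T q k)^[i] y with hb
    set X : ℝ := |(a : ℝ)| with hX
    set Y : ℝ := |(b : ℝ)| with hY
    set X' : ℝ := |(T q k a : ℝ)| with hX'
    set Y' : ℝ := |(T q k b : ℝ)| with hY'
    set K : ℝ := |(k : ℝ)| with hK
    set Q : ℝ := (q : ℝ) ^ dis q k x y i with hQ
    have hQ0 : 0 < Q := by positivity
    have hY0 : 0 ≤ Y := abs_nonneg _
    have hY'0 : 0 ≤ Y' := abs_nonneg _
    have hKp : K * p < X := lt_of_le_of_lt hL hxi
    have hX0 : 0 < X := lt_of_le_of_lt (by positivity) hKp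
    have hKX : K ≤ X := by nlinarith
    have hci : 0 < c ^ i := by positivity
    have evenX : a % 2 = 0 → X = 2 * X' := by
      intro h
      have h1 : (2 : ℝ) * T q k a = a := by exact_mod_cast two_mul_even (q := q) (k := k) a h
      rw [hX, hX', ← h1, abs_mul]; norm_num
    have evenY : b % 2 = 0 → Y = 2 * Y' := by
      intro h
      have h1 : (2 : ℝ) * T q k b = b := by exact_mod_cast two_mul_even (q := q) (k := k) b h
      rw [hY, hY', ← h1, abs_mul]; norm_num
    have oddX : ¬ a % 2 = 0 → q * X * c ≤ 2 * X' := by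
      intro h
      have h1 : (2 : ℝ) * T q k a = q * a + k := by exact_mod_cast two_mul_odd hq hk a h
      have h2 : 2 * X' = |(q : ℝ) * a + k| := by
        rw [hX', ← h1, abs_mul]; norm_num
      have h3 : (q : ℝ) * X ≤ |(q : ℝ) * a + k| + K := by
        have : (q : ℝ) * X = |(q : ℝ) * a| := by
          rw [abs_mul, abs_of_nonneg (by linarith : (0 : ℝ) ≤ q)]
        rw [this, hK]
        have := abs_sub_abs_le_abs_sub ((q : ℝ) * a) (-k)
        rw [abs_neg, sub_neg_eq_add] at this
        linarith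
      have h4 : q * X * c = q * X - X / p := by
        rw [hc]; field_simp
      have h5 : K ≤ X / p := by
        rw [le_div_iff₀ (by linarith)]; exact hKp.le
      rw [h4]; linarith
    have oddY : ¬ b % 2 = 0 → 2 * Y' ≤ q * Y + K := by
      intro h
      have h1 : (2 : ℝ) * T q k b = q * b + k := by exact_mod_cast two_mul_odd hq hk b h
      have h2 : 2 * Y' = |(q : ℝ) * b + k| := by
        rw [hY', ← h1, abs_mul]; norm_num
      rw [h2]
      refine (abs_add_le _ _).trans ?_
      rw [abs_mul, abs_of_nonneg (by linarith : (0 : ℝ) ≤ q)]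
    have key : ∀ e : ℕ, (X' + Y') * X * c ≤ (q : ℝ) ^ e * (X + Y) * X' →
        (X' + Y') * c ^ (i + 1) ≤ 2 * (q : ℝ) ^ (dis q k x y i + e) * X' := by
      intro e he
      have hX'0 : 0 ≤ X' := abs_nonneg _
      have h2 : (X' + Y') * X * c * c ^ i ≤ (q : ℝ) ^ e * (X + Y) * X' * c ^ i :=
        mul_le_mul_of_nonneg_right he hci.le
      have h3 : (q : ℝ) ^ e * X' * ((X + Y) * c ^ i) ≤ (q : ℝ) ^ e * X' * (2 * Q * X) :=
        mul_le_mul_of_nonneg_left h1 (by positivity)
      have h4 : X * ((X' + Y') * c ^ (i + 1)) ≤ X * (2 * (q : ℝ) ^ (dis q k x y i + e) * X') := by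
        have e1 : (q : ℝ) ^ (dis q k x y i + e) = Q * (q : ℝ) ^ e := by rw [pow_add]
        rw [e1, pow_succ c i]
        calc X * ((X' + Y') * (c ^ i * c)) = (X' + Y') * X * c * c ^ i := by ring
          _ ≤ (q : ℝ) ^ e * (X + Y) * X' * c ^ i := h2
          _ = (q : ℝ) ^ e * X' * ((X + Y) * c ^ i) := by ring
          _ ≤ (q : ℝ) ^ e * X' * (2 * Q * X) := h3
          _ = X * (2 * (Q * (q : ℝ) ^ e) * X') := by ring
      exact le_of_mul_le_mul_left h4 hX0
    by_cases hae : a % 2 = 0
    · have hXe := evenX hae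
      have hX'0 : 0 < X' := by linarith
      by_cases hbe : b % 2 = 0
      · have hYe := evenY hbe
        rw [if_pos (by omega)]
        apply key 0
        rw [pow_zero, one_mul, hYe, hXe]
        nlinarith [mul_nonneg hX'0.le (mul_nonneg hX'0.le (sub_nonneg.2 hc1)),
          mul_nonneg hY'0 (mul_nonneg hX'0.le (sub_nonneg.2 hc1))]
      · have hYo := oddY hbe
        rw [if_neg (by omega)]
        apply key 1
        rw [pow_one]
        have h2 : X' + Y' ≤ q * (X + Y) / 2 := by nlinarith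
        have h3 : (X' + Y') * X * c ≤ (X' + Y') * X := by
          have : 0 ≤ (X' + Y') * X := by positivity
          nlinarith
        have h4 : (X' + Y') * X ≤ q * (X + Y) / 2 * X := mul_le_mul_of_nonneg_right h2 hX0.le
        nlinarith
    · have hXo := oddX hae
      by_cases hbe : b % 2 = 0
      · have hYe := evenY hbe
        rw [if_neg (by omega)]
        apply key 1
        rw [pow_one]
        have hqc : 2 ≤ q * c := by nlinarith
        have hXX : X ≤ X' := by nlinarith [mul_le_mul_of_nonneg_right hqc hX0.le]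
        have h3 : (X' + Y') * X * c ≤ (X' + Y') * X := by
          have : 0 ≤ (X' + Y') * X := by positivity
          nlinarith
        have h4 : (X' + Y') * X ≤ (X + Y) * X' := by nlinarith
        have h5 : (X + Y) * X' ≤ q * (X + Y) * X' := by
          have : 0 ≤ (X + Y) * X' := by positivity
          nlinarith
        linarith
      · have hYo := oddY hbe
        rw [if_pos (by omega)]
        apply key 0
        rw [pow_zero, one_mul]
        have hqc : (q : ℝ) * (1 - c) * p = 1 := by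
          rw [hc]; field_simp; ring
        exact oddodd hX0 hY0 hc1 (by linarith) hXo hYo (by
          have h4 : (q : ℝ) * X * (1 - c) * p = X := by
            calc (q : ℝ) * X * (1 - c) * p = (q * (1 - c) * p) * X := by ring
              _ = X := by rw [hqc, one_mul]
          have h5 : K * p ≤ q * X * (1 - c) * p := by rw [h4]; exact hKp.le
          exact le_of_mul_le_mul_right h5 (by linarith))

end Pool.Agent.Y780.Cz
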