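import Mathlib
import Pool.Agent.Y780.Cz.Ham

set_option autoImplicit false

/-!
# Two periodic points of `T_{q,k}`
-/

open Finset

namespace Pool.Agent.Y780.Cz

variable {q k : ℤ}

lemma iter_mul {x : ℤ} {p : ℕ} (h : (T q k)^[p] x = x) (m : ℕ) : (T q k)^[p * m] x = x := by
  rw [Function.iterate_mul]
  exact Function.iterate_fixed h m

lemma iter_shift {x : ℤ} {p : ℕ} (h : (T q k)^[p] x = x) (j : ℕ) :
    (T q k)^[p] ((T q k)^[j] x) = (T q k)^[j] x := by
  rw [← Function.iterate_add_apply, add_comm, Function.iterate_add_apply, h]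

lemma iter_ne {x y : ℤ} {p : ℕ} (hp : 1 ≤ p) (hx : (T q k)^[p] x = x) (hy : (T q k)^[p] y = y)
    (hxy : x ≠ y) (a : ℕ) : (T q k)^[a] x ≠ (T q k)^[a] y := by
  intro h
  apply hxy
  have h1 : (T q k)^[p * a] x = (T q k)^[p * a] y := by
    obtain ⟨c, hc⟩ : ∃ c, p * a = c + a := ⟨p * a - a, by
      have : a ≤ p * a := Nat.le_mul_of_pos_left a hp
      omega⟩
    rw [hc, Function.iterate_add_apply, Function.iterate_add_apply, h]
  rw [iter_mul hx, iter_mul hy] at h1
  exact h1

/-- the number of disagreements over a period does not depend on the starting point -/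
lemma dis_shift {x y : ℤ} {p : ℕ} (hx : (T q k)^[p] x = x) (hy : (T q k)^[p] y = y) (j : ℕ) :
    dis q k ((T q k)^[j] x) ((T q k)^[j] y) p = dis q k x y p := by
  have h1 := dis_add (q := q) (k := k) x y j p
  have h2 := dis_add (q := q) (k := k) x y p j
  rw [hx, hy, add_comm p j] at h2
  omega

/-- there is a time at which both trajectories are small -/
lemma both_small (hq : q % 2 = 1) (hq3 : 3 ≤ q) (hk : k % 2 = 1) {p : ℕ} (hp : 1 ≤ p) {L : ℝ}
    (hL : |(k : ℝ)| * p ≤ L) {x y : ℤ} (hx : (T q k)^[p] x = x) (hy : (T q k)^[p] y = y)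
    (hi : ∃ i, |((T q k)^[i] x : ℝ)| ≤ L) (hj : ∃ j, |((T q k)^[j] y : ℝ)| ≤ L) :
    ∃ s, |((T q k)^[s] x : ℝ)| ≤ L ∧
      |((T q k)^[s] y : ℝ)| ≤ 3 * (q : ℝ) ^ dis q k x y p * L := by
  classical
  obtain ⟨i, hi⟩ := hi
  obtain ⟨j, hj⟩ := hj
  have hq3' : (3 : ℝ) ≤ q := by exact_mod_cast hq3
  have hpR : (1 : ℝ) ≤ p := by exact_mod_cast hp
  have hk1 := one_le_abs_k hk
  have hL0 : 0 < L := lt_of_lt_of_le (by positivity) hL
  set x1 := (T q k)^[j] x with hx1
  set y1 := (T q k)^[j] y with hy1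
  have hpx1 : (T q k)^[p] x1 = x1 := iter_shift hx j
  have hpy1 : (T q k)^[p] y1 = y1 := iter_shift hy j
  have hex : ∃ t, |((T q k)^[t] x1 : ℝ)| ≤ L := by
    refine ⟨i + (p * j - j), ?_⟩
    rw [hx1, ← Function.iterate_add_apply]
    have e : i + (p * j - j) + j = i + p * j := by
      have : j ≤ p * j := Nat.le_mul_of_pos_left j hp
      omega
    rw [e, Function.iterate_add_apply, iter_mul hx]
    exact hi
  set t := Nat.find hex with ht
  have htspec : |((T q k)^[t] x1 : ℝ)| ≤ L := Nat.find_spec hex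
  have htmin : ∀ i < t, L < |((T q k)^[i] x1 : ℝ)| := by
    intro i hi
    exact not_le.1 (Nat.find_min hex hi)
  have htp : t < p := by
    by_contra hcon
    have h1 := htmin (t - p) (by omega)
    have h2 : (T q k)^[t] x1 = (T q k)^[t - p] x1 := by
      obtain ⟨c, hc⟩ : ∃ c, t = c + p := ⟨t - p, by omega⟩
      rw [hc, Function.iterate_add_apply, hpx1, Nat.add_sub_cancel]
    rw [h2] at htspec
    linarith
  refine ⟨t + j, ?_, ?_⟩
  · rw [Function.iterate_add_apply]; exact htspec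
  · rw [Function.iterate_add_apply]
    have hQ1 : (1 : ℝ) ≤ (q : ℝ) ^ dis q k x y p := one_le_pow₀ (by linarith)
    rcases Nat.eq_zero_or_pos t with h0 | h0
    · rw [h0, Function.iterate_zero, id]
      refine hj.trans ?_
      nlinarith
    · have h1 := compare hq hq3 hk p hp L hL x1 y1 hj t htmin h0 t le_rfl
      set X : ℝ := |((T q k)^[t] x1 : ℝ)| with hX
      set Y : ℝ := |((T q k)^[t] y1 : ℝ)| with hY
      have hX0 : 0 ≤ X := abs_nonneg _
      have hY0 : 0 ≤ Y := abs_nonneg _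
      set c : ℝ := 1 - 1 / (q * p) with hc
      have hqp : (3 : ℝ) ≤ q * p := by nlinarith
      have hc0 : 2 / 3 ≤ c := by
        have : 1 / ((q : ℝ) * p) ≤ 1 / 3 := one_div_le_one_div_of_le (by norm_num) hqp
        linarith
      have hcle : c ≤ 1 := by
        have : (0 : ℝ) ≤ 1 / (q * p) := by positivity
        linarith
      have hct : 2 / 3 ≤ c ^ t := by
        have h2 : c ^ p ≤ c ^ t := pow_le_pow_of_le_one (by linarith) hcle htp.le
        have h3 : 1 + (p : ℝ) * (-(1 / (q * p))) ≤ (1 + -(1 / ((q : ℝ) * p))) ^ p := by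
          apply one_add_mul_le_pow
          have : 1 / ((q : ℝ) * p) ≤ 1 / 3 := one_div_le_one_div_of_le (by norm_num) hqp
          linarith
        have h4 : (p : ℝ) * (-(1 / (q * p))) = -(1 / q) := by field_simp
        have h5 : 1 / (q : ℝ) ≤ 1 / 3 := one_div_le_one_div_of_le (by norm_num) hq3'
        rw [h4, ← sub_eq_add_neg, ← sub_eq_add_neg] at h3
        linarith
      have hd : dis q k x1 y1 t ≤ dis q k x y p := by
        rw [← dis_shift hx hy j]
        exact dis_mono _ _ htp.le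
      have hQ : (q : ℝ) ^ dis q k x1 y1 t ≤ (q : ℝ) ^ dis q k x y p :=
        pow_le_pow_right₀ (by linarith) hd
      have h2 : Y * (2 / 3) ≤ 2 * (q : ℝ) ^ dis q k x y p * L := by
        calc Y * (2 / 3) ≤ (X + Y) * c ^ t := by
              have : Y * (2 / 3) ≤ Y * c ^ t := mul_le_mul_of_nonneg_left hct hY0
              have h6 : 0 ≤ X * c ^ t := by positivity
              nlinarith
          _ ≤ 2 * (q : ℝ) ^ dis q k x1 y1 t * X := h1
          _ ≤ 2 * (q : ℝ) ^ dis q k x y p * L := by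
              apply mul_le_mul (by linarith) htspec hX0 (by positivity)
      linarith

/-- **Pairs of periodic points.** -/
theorem pair_bound (hq : q % 2 = 1) (hq3 : 3 ≤ q) (hk : k % 2 = 1) {p : ℕ} (hp : 1 ≤ p) {L : ℝ}
    (hL : |(k : ℝ)| * p ≤ L) {x y : ℤ} (hxy : x ≠ y) (hx : (T q k)^[p] x = x)
    (hy : (T q k)^[p] y = y)
    (hi : ∃ i, |((T q k)^[i] x : ℝ)| ≤ L) (hj : ∃ j, |((T q k)^[j] y : ℝ)| ≤ L) :
    (p : ℝ) ≤ (4 + dis q k x y p * Real.logb 2 q + Real.logb 2 L) *
      ∑ j ∈ range (dis q k x y p + 1), Real.logb 2 q ^ j := by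
  have hq3' : (3 : ℝ) ≤ q := by exact_mod_cast hq3
  have hpR : (1 : ℝ) ≤ p := by exact_mod_cast hp
  have hk1 := one_le_abs_k hk
  have hL0 : 1 ≤ L := le_trans (by nlinarith) hL
  have hkL : |(k : ℝ)| ≤ L := le_trans (by nlinarith) hL
  obtain ⟨s, hsx, hsy⟩ := both_small hq hq3 hk hp hL hx hy hi hj
  have h1 := count hq hq3 hk (dis q k x y p) p ((T q k)^[s] x) ((T q k)^[s] y)
    (dis_shift hx hy s) (by
      rw [iter_shift hx, iter_shift hy]
      exact iter_ne hp hx hy hxy s)
  refine h1.trans (mul_le_mul_of_nonneg_right ?_ (Finset.sum_nonneg fun j _ => ?_))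
  · have hQ1 : (1 : ℝ) ≤ (q : ℝ) ^ dis q k x y p := one_le_pow₀ (by linarith)
    have hQL : L ≤ (q : ℝ) ^ dis q k x y p * L := by nlinarith
    have h2 : mx k ((T q k)^[s] x) ((T q k)^[s] y) ≤ 4 * ((q : ℝ) ^ dis q k x y p * L) := by
      unfold mx
      have : max |(((T q k)^[s] x : ℤ) : ℝ)| |(((T q k)^[s] y : ℤ) : ℝ)| ≤
          3 * ((q : ℝ) ^ dis q k x y p * L) := by
        apply max_le
        · linarith
        · linarith
      linarith
    have h3 : Real.logb 2 (mx k ((T q k)^[s] x) ((T q k)^[s] y)) ≤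
        Real.logb 2 (4 * ((q : ℝ) ^ dis q k x y p * L)) :=
      Real.logb_le_logb_of_le (by norm_num) (by have := one_le_mx hk ((T q k)^[s] x) ((T q k)^[s] y); linarith) h2
    rw [Real.logb_mul (by norm_num) (by positivity), Real.logb_mul (by positivity) (by positivity),
      Real.logb_pow] at h3
    have h4 : Real.logb 2 4 = 2 := by
      rw [show (4 : ℝ) = 2 ^ 2 by norm_num, Real.logb_pow, Real.logb_self_eq_one (by norm_num)]
      norm_num
    rw [h4] at h3
    linarith
  · have : 0 ≤ Real.logb 2 (q : ℝ) := Real.logb_nonneg (by norm_num) (by linarith)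
    positivity

end Pool.Agent.Y780.Cz
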