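import Mathlib
import Pool.Agent.Y780.Cz.Pair
import Pool.Agent.H547R3.Sub.Tqk2

set_option autoImplicit false

/-!
# Pairs of periodic points of `T_{q,k}`, uniformly in `k`
-/

open Finset

namespace Pool.Agent.Y780.Cz

lemma geom_le' {δ : ℝ} (hδ : 1 < δ) (D : ℕ) : ∑ j ∈ range (D + 1), δ ^ j ≤ δ / (δ - 1) * δ ^ D := by
  rw [geom_sum_eq hδ.ne']
  have h1 : 0 < δ - 1 := by linarith
  rw [div_mul_eq_mul_div, div_le_div_iff_of_pos_right h1, pow_succ]
  nlinarith

lemma Tm_eq (q k : ℤ) : Pool.Agent.H547R3.Sub.Tm q k = T q k := by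
  funext x; rfl

/-- **The bound for `T_{q,k}`, uniform in `k`.** -/
theorem gen {q : ℕ} (hq : q.Prime) (hq2 : q ≠ 2) : ∃ A : ℝ, 0 < A ∧ ∀ k : ℤ, k % 2 = 1 →
    ∀ (x y : ℤ) (p : ℕ), 1 ≤ p → x ≠ y → (T q k)^[p] x = x → (T q k)^[p] y = y →
      (p : ℝ) ≤ A * (dis q k x y p + Real.log |(k : ℝ)| + (1 + Real.log p) ^ 2) *
        (Real.log q / Real.log 2) ^ dis q k x y p := by
  obtain ⟨B, hB, hmin⟩ := Pool.Agent.H547R3.Sub.min_size hq hq2
  have hq3 : 3 ≤ q := by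
    have := hq.two_le
    omega
  have hq1 : (q : ℤ) % 2 = 1 := by
    rcases hq.eq_two_or_odd with h | h
    · exact absurd h hq2
    · omega
  have hq3' : (3 : ℝ) ≤ q := by exact_mod_cast hq3
  set B1 : ℝ := max B 1 with hB1
  have hB11 : 1 ≤ B1 := le_max_right _ _
  have hBB1 : B ≤ B1 := le_max_left _ _
  set δ : ℝ := Real.logb 2 q with hδ
  have hδ1 : 1 < δ := by
    rw [hδ, Real.lt_logb_iff_rpow_lt (by norm_num) (by linarith), Real.rpow_one]; linarith
  have hδe : Real.log q / Real.log 2 = δ := rfl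
  have hl2 : 0 < Real.log 2 := Real.log_pos (by norm_num)
  set A0 : ℝ := 4 + δ + 1 / Real.log 2 + B1 / Real.log 2 with hA0
  have hA00 : 0 < A0 := by rw [hA0]; positivity
  have hδ2 : 0 < δ / (δ - 1) := div_pos (by linarith) (by linarith)
  refine ⟨A0 * (δ / (δ - 1)), by positivity, fun k hk x y p hp hxy hx hy => ?_⟩
  rw [hδe]
  set D := dis q k x y p with hD
  have hpR : (1 : ℝ) ≤ p := by exact_mod_cast hp
  have hp0 : (0 : ℝ) < p := by linarith
  have hlogp : 0 ≤ Real.log p := Real.log_nonneg hpR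
  have hk1 : (1 : ℝ) ≤ |(k : ℝ)| := one_le_abs_k hk
  have hlogk : 0 ≤ Real.log |(k : ℝ)| := Real.log_nonneg hk1
  set E : ℝ := B1 * (1 + Real.log p) ^ 2 with hE
  set L : ℝ := |(k : ℝ)| * Real.exp E with hL
  have hpE : (p : ℝ) ≤ Real.exp E := by
    calc (p : ℝ) = Real.exp (Real.log p) := (Real.exp_log hp0).symm
      _ ≤ Real.exp E := by
        apply Real.exp_le_exp.2
        rw [hE]
        nlinarith
  have hkL : |(k : ℝ)| * p ≤ L := mul_le_mul_of_nonneg_left hpE (by linarith)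
  have small : ∀ z : ℤ, (T q k)^[p] z = z → ∃ i, |((T q k)^[i] z : ℝ)| ≤ L := by
    intro z hz
    obtain ⟨i, -, hi⟩ := hmin k hk z p hp hz
    refine ⟨i, ?_⟩
    rw [Tm_eq] at hi
    have h1 : 0 < |(((T q k)^[i] z : ℤ) : ℝ)| + |(k : ℝ)| := by
      have := abs_nonneg (((T q k)^[i] z : ℤ) : ℝ)
      linarith
    have h2 := Real.exp_le_exp.2 hi
    rw [Real.exp_log h1, Real.exp_add, Real.exp_log (by linarith)] at h2
    have h3 : Real.exp (B * (1 + Real.log p) ^ 2) ≤ Real.exp E := by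
      apply Real.exp_le_exp.2
      rw [hE]
      exact mul_le_mul_of_nonneg_right hBB1 (by positivity)
    have h4 : |(k : ℝ)| * Real.exp (B * (1 + Real.log p) ^ 2) ≤ L := mul_le_mul_of_nonneg_left h3 (by linarith)
    linarith
  have h1 := pair_bound (q := q) (k := k) hq1 (by exact_mod_cast hq3) hk hp hkL hxy hx hy (small x hx)
    (small y hy)
  have hLlog : Real.logb 2 L = (Real.log |(k : ℝ)| + E) / Real.log 2 := by
    unfold Real.logb
    rw [hL, Real.log_mul (by linarith) (Real.exp_pos _).ne', Real.log_exp]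
  rw [hLlog] at h1
  push_cast at h1
  rw [← hδ, ← hD] at h1
  have h2 := geom_le' hδ1 D
  have hD0 : (0 : ℝ) ≤ D := Nat.cast_nonneg _
  set S : ℝ := (1 + Real.log p) ^ 2 with hS
  have hS1 : 1 ≤ S := by rw [hS]; nlinarith
  have h3 : 4 + (D : ℝ) * δ + (Real.log |(k : ℝ)| + E) / Real.log 2 ≤
      A0 * (D + Real.log |(k : ℝ)| + S) := by
    have e1 : (Real.log |(k : ℝ)| + E) / Real.log 2 =
        1 / Real.log 2 * Real.log |(k : ℝ)| + B1 / Real.log 2 * S := by
      rw [hE]; field_simp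
    rw [e1, hA0]
    have e2 : 0 ≤ 1 / Real.log 2 := by positivity
    have e3 : 0 ≤ B1 / Real.log 2 := by positivity
    nlinarith [mul_nonneg e2 hD0, mul_nonneg e3 hD0, mul_nonneg e3 hlogk, mul_nonneg e2 (by linarith : 0 ≤ S),
      mul_nonneg hlogk (by linarith : 0 ≤ δ), mul_nonneg (by linarith : 0 ≤ S) (by linarith : 0 ≤ δ)]
  have h4 : 0 ≤ 4 + (D : ℝ) * δ + (Real.log |(k : ℝ)| + E) / Real.log 2 := by
    have : 0 ≤ E := by rw [hE]; positivity
    positivity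
  have h5 : 0 ≤ δ / (δ - 1) * δ ^ D := by positivity
  calc (p : ℝ) ≤ (4 + (D : ℝ) * δ + (Real.log |(k : ℝ)| + E) / Real.log 2) * ∑ j ∈ range (D + 1), δ ^ j := h1
    _ ≤ (4 + (D : ℝ) * δ + (Real.log |(k : ℝ)| + E) / Real.log 2) * (δ / (δ - 1) * δ ^ D) :=
        mul_le_mul_of_nonneg_left h2 h4
    _ ≤ (A0 * (D + Real.log |(k : ℝ)| + S)) * (δ / (δ - 1) * δ ^ D) := mul_le_mul_of_nonneg_right h3 h5
    _ = A0 * (δ / (δ - 1)) * (D + Real.log |(k : ℝ)| + S) * δ ^ D := by ring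

variable {q k : ℤ}

/-- for a given period there are only finitely many periodic points -/
lemma finite_period (hq : q % 2 = 1) (hk : k % 2 = 1) {p : ℕ} (hp : 1 ≤ p) :
    {x : ℤ | (T q k)^[p] x = x}.Finite := by
  classical
  have hinj : Set.InjOn (fun (x : ℤ) (i : Fin p) => decide ((T q k)^[(i : ℕ)] x % 2 = 0))
      {x : ℤ | (T q k)^[p] x = x} := by
    intro x hx y hy h
    have hx' : (T q k)^[p] x = x := hx
    have hy' : (T q k)^[p] y = y := hy
    have h1 : ∀ i : ℕ, i < p → (T q k)^[i] x % 2 = (T q k)^[i] y % 2 := by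
      intro i hi
      have h2 := congrFun h ⟨i, hi⟩
      simp only [decide_eq_decide] at h2
      omega
    have h3 : ∀ i : ℕ, (T q k)^[i] x % 2 = (T q k)^[i] y % 2 := by
      intro i
      have e : ∀ z : ℤ, (T q k)^[p] z = z → (T q k)^[i] z = (T q k)^[i % p] z := by
        intro z hz
        conv_lhs => rw [← Nat.mod_add_div i p, Function.iterate_add_apply, iter_mul hz]
      rw [e x hx', e y hy']
      exact h1 _ (Nat.mod_lt _ (by omega))
    by_contra hxy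
    have h4 : (2 : ℤ) ^ (x - y).natAbs ∣ x - y :=
      dvd_sub_of_agree hq hk _ x y (fun i _ => h3 i)
    have h5 : (2 : ℤ) ^ (x - y).natAbs ≤ |x - y| :=
      Int.le_of_dvd (abs_pos.2 (sub_ne_zero.2 hxy)) ((dvd_abs _ _).2 h4)
    have h6 : (x - y).natAbs < 2 ^ (x - y).natAbs := Nat.lt_two_pow_self
    have h7 : ((x - y).natAbs : ℤ) < 2 ^ (x - y).natAbs := by exact_mod_cast h6
    rw [Int.abs_eq_natAbs] at h5
    omega
  exact Set.Finite.of_finite_image (Set.toFinite _) hinj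

/-- a number bounded by a multiple of the square of its logarithm -/
lemma bounded_of_log (C1 C2 : ℝ) (hC1 : 0 < C1) : ∃ P : ℕ, ∀ p : ℕ, 1 ≤ p →
    (p : ℝ) ≤ C1 * (C2 + (1 + Real.log p) ^ 2) → p ≤ P := by
  have h1 := Real.isLittleO_pow_log_id_atTop (n := 2)
  have h2 := h1.bound (show (0 : ℝ) < 1 / (4 * C1) by positivity)
  rw [Filter.eventually_atTop] at h2
  obtain ⟨N, hN⟩ := h2
  obtain ⟨P1, hP1⟩ := exists_nat_ge N
  obtain ⟨P2, hP2⟩ := exists_nat_ge (2 * C1 * (C2 + 2))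
  refine ⟨max P1 P2, fun p hp h => ?_⟩
  by_contra hcon
  push Not at hcon
  have h3 : (P1 : ℝ) ≤ p := by exact_mod_cast (le_max_left P1 P2).trans hcon.le
  have h4 : (P2 : ℝ) < p := by exact_mod_cast lt_of_le_of_lt (le_max_right P1 P2) hcon
  have h5 := hN p (hP1.trans h3)
  have hpR : (1 : ℝ) ≤ p := by exact_mod_cast hp
  rw [Real.norm_of_nonneg (by positivity), id, Real.norm_of_nonneg (by linarith)] at h5
  have h6 : (1 + Real.log p) ^ 2 ≤ 2 + 2 * Real.log p ^ 2 := by nlinarith [sq_nonneg (1 - Real.log p)]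
  have h7 : C1 * (2 * Real.log p ^ 2) ≤ p / 2 := by
    calc C1 * (2 * Real.log p ^ 2) ≤ C1 * (2 * (1 / (4 * C1) * p)) := by gcongr
      _ = p / 2 := by field_simp; norm_num
  have h8 : (p : ℝ) ≤ C1 * (C2 + (2 + 2 * Real.log p ^ 2)) := by
    refine h.trans (mul_le_mul_of_nonneg_left ?_ hC1.le)
    linarith
  nlinarith

/-- **Finiteness.** -/
theorem finite_close {q : ℕ} (hq : q.Prime) (hq2 : q ≠ 2) {k : ℤ} (hk : k % 2 = 1) (D : ℕ) :
    {x : ℤ | ∃ (y : ℤ) (p : ℕ), 1 ≤ p ∧ x ≠ y ∧ (T q k)^[p] x = x ∧ (T q k)^[p] y = y ∧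
      dis q k x y p ≤ D}.Finite := by
  obtain ⟨A, hA, h⟩ := gen hq hq2
  have hq3 : 3 ≤ q := by
    have := hq.two_le
    omega
  have hq1 : (q : ℤ) % 2 = 1 := by
    rcases hq.eq_two_or_odd with h | h
    · exact absurd h hq2
    · omega
  have hq3' : (3 : ℝ) ≤ q := by exact_mod_cast hq3
  have hl2 : 0 < Real.log 2 := Real.log_pos (by norm_num)
  have hδ1 : 1 ≤ Real.log q / Real.log 2 := by
    rw [le_div_iff₀ hl2, one_mul]
    exact Real.log_le_log (by norm_num) (by linarith)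
  obtain ⟨P, hP⟩ := bounded_of_log (A * (Real.log q / Real.log 2) ^ D) (D + Real.log |(k : ℝ)|)
    (by positivity)
  refine Set.Finite.subset (Set.Finite.biUnion (Set.finite_Icc 1 P)
    (t := fun p => {x : ℤ | (T q k)^[p] x = x})
    (fun p hp => finite_period hq1 hk (Set.mem_Icc.1 hp).1)) ?_
  rintro x ⟨y, p, hp, hxy, hx, hy, hD⟩
  rw [Set.mem_iUnion₂]
  refine ⟨p, ⟨hp, hP p hp ?_⟩, hx⟩
  refine (h k hk x y p hp hxy hx hy).trans ?_
  have hD' : (dis q k x y p : ℝ) ≤ D := by exact_mod_cast hD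
  have h1 : (Real.log q / Real.log 2) ^ dis q k x y p ≤ (Real.log q / Real.log 2) ^ D :=
    pow_le_pow_right₀ hδ1 hD
  have hk1 : (1 : ℝ) ≤ |(k : ℝ)| := one_le_abs_k hk
  have hlogk : 0 ≤ Real.log |(k : ℝ)| := Real.log_nonneg hk1
  have hd0 : (0 : ℝ) ≤ dis q k x y p := Nat.cast_nonneg _
  calc A * (dis q k x y p + Real.log |(k : ℝ)| + (1 + Real.log p) ^ 2) *
        (Real.log q / Real.log 2) ^ dis q k x y p
      ≤ A * (D + Real.log |(k : ℝ)| + (1 + Real.log p) ^ 2) * (Real.log q / Real.log 2) ^ D := by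
        gcongr
    _ = A * (Real.log q / Real.log 2) ^ D * (D + Real.log |(k : ℝ)| + (1 + Real.log p) ^ 2) := by ring

end Pool.Agent.Y780.Cz
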