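import Mathlib
import Pool.Agent.Y780.Cz.Gen

set_option autoImplicit false

/-!
# Parity words of low complexity

If the parity word of length `N` of `x` (whose first `N` iterates are pairwise distinct) is a
concatenation of `m` words which have at most `θ n + c` factors of each length `n`, where
`θ (log_2 q - 1) < 1`, then `N ≤ B ^ (m + 1) (1 + log (|x| + |k|))`.
-/

open Finset

namespace Pool.Agent.Y780.Cz

/-- The number of different factors of length `n` of the word `u`. -/
def cpl (u : List Bool) (n : ℕ) : ℕ :=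
  ((Finset.range (u.length + 1 - n)).image fun i => (u.drop i).take n).card

/-- The parity word. -/
def par (q k x : ℤ) (n : ℕ) : List Bool :=
  (List.range n).map fun i => decide ((T q k)^[i] x % 2 = 1)

lemma par_length (q k x : ℤ) (n : ℕ) : (par q k x n).length = n := by
  unfold par; simp

lemma par_add (q k x : ℤ) (a b : ℕ) :
    par q k x (a + b) = par q k x a ++ par q k ((T q k)^[a] x) b := by
  unfold par
  rw [List.range_add, List.map_append, List.map_map]
  congr 1
  apply List.map_congr_left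
  intro i _
  have e : (T q k)^[a + i] x = (T q k)^[i] ((T q k)^[a] x) := by
    rw [add_comm a i, Function.iterate_add_apply]
  change decide ((T q k)^[a + i] x % 2 = 1) = _
  simp only [e]

lemma cpl_drop_le (u : List Bool) (j n : ℕ) : cpl (u.drop j) n ≤ cpl u n := by
  unfold cpl
  apply Finset.card_le_card
  intro w hw
  rw [Finset.mem_image] at hw ⊢
  obtain ⟨i, hi, rfl⟩ := hw
  rw [Finset.mem_range, List.length_drop] at hi
  by_cases hj : j ≤ u.length
  · refine ⟨j + i, Finset.mem_range.2 (by omega), ?_⟩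
    rw [List.drop_drop]
  · refine ⟨0, Finset.mem_range.2 (by omega), ?_⟩
    have hn : n = 0 := by omega
    subst hn
    simp

/-- dropping an initial segment of a concatenation -/
lemma flatten_drop (W : List (List Bool)) : ∀ i : ℕ, ∃ W' : List (List Bool),
    W'.flatten = W.flatten.drop i ∧ W'.length ≤ W.length ∧ ∀ u' ∈ W', ∃ u ∈ W, ∃ j, u' = u.drop j := by
  induction W with
  | nil => intro i; exact ⟨[], by simp, by simp, by simp⟩
  | cons u W ih =>
    intro i
    by_cases hi : i ≤ u.length
    · refine ⟨u.drop i :: W, ?_, by simp, ?_⟩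
      · rw [List.flatten_cons, List.flatten_cons, List.drop_append_of_le_length hi]
      · intro u' hu'
        rw [List.mem_cons] at hu'
        rcases hu' with rfl | hu'
        · exact ⟨u, by simp, i, rfl⟩
        · exact ⟨u', by simp [hu'], 0, by simp⟩
    · obtain ⟨W', h1, h2, h3⟩ := ih (i - u.length)
      refine ⟨W', ?_, by simp; omega, ?_⟩
      · have e : List.drop i u = [] := List.drop_eq_nil_of_le (by omega)
        rw [h1, List.flatten_cons, List.drop_append, e, List.nil_append]
      · intro u' hu'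
        obtain ⟨v, hv, j, hj⟩ := h3 u' hu'
        exact ⟨v, by simp [hv], j, hj⟩

/-- The height of an integer. -/
noncomputable def ht (k x : ℤ) : ℝ := Real.logb 2 (|(x : ℝ)| + |(k : ℝ)|)

variable {q k : ℤ}

lemma ht_nonneg (hk : k % 2 = 1) (x : ℤ) : 0 ≤ ht k x := by
  unfold ht
  apply Real.logb_nonneg (by norm_num)
  have := one_le_abs_k hk
  have := abs_nonneg (x : ℝ)
  linarith

lemma ht_iter_le (hq : q % 2 = 1) (hq3 : 3 ≤ q) (hk : k % 2 = 1) (x : ℤ) (n : ℕ) :
    ht k ((T q k)^[n] x) ≤ ht k x + (Real.logb 2 q - 1) * n := by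
  have hq3' : (3 : ℝ) ≤ q := by exact_mod_cast hq3
  have h1 := mx_iter_le hq hq3 hk n x x
  unfold mx at h1
  rw [max_self, max_self] at h1
  have hk1 := one_le_abs_k hk
  have h2 : 0 < |(x : ℝ)| + |(k : ℝ)| := by have := abs_nonneg (x : ℝ); linarith
  have h3 : 0 < |(((T q k)^[n] x : ℤ) : ℝ)| + |(k : ℝ)| := by
    have := abs_nonneg (((T q k)^[n] x : ℤ) : ℝ); linarith
  unfold ht
  have h4 := Real.logb_le_logb_of_le (b := 2) (by norm_num) h3 h1
  rw [Real.logb_mul (by positivity) h2.ne', Real.logb_pow, Real.logb_div (by linarith) (by norm_num),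
    Real.logb_self_eq_one (by norm_num)] at h4
  linarith

/-- **One piece.** -/
lemma piece (hq : q % 2 = 1) (hq3 : 3 ≤ q) (hk : k % 2 = 1) {θ c κ : ℝ} (hθ : 0 ≤ θ) (hc : 0 ≤ c)
    (hκ : κ = 1 - (Real.logb 2 q - 1) * θ) (hκ0 : 0 < κ) (x : ℤ) (L : ℕ)
    (hlow : ∀ n, (cpl (par q k x L) n : ℝ) ≤ θ * n + c)
    (hinj : ∀ i < L, ∀ j < L, (T q k)^[i] x = (T q k)^[j] x → i = j) :
    (L : ℝ) ≤ ((θ + 1) * ((1 + (Real.logb 2 q - 1) * c) / κ + 1 / κ + 1) + c) * (1 + ht k x) := by
  have hq3' : (3 : ℝ) ≤ q := by exact_mod_cast hq3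
  have hδ : 1 ≤ Real.logb 2 q := by
    rw [Real.le_logb_iff_rpow_le (by norm_num) (by linarith), Real.rpow_one]; linarith
  set δ : ℝ := Real.logb 2 q with hδdef
  have hh := ht_nonneg hk x
  set h : ℝ := ht k x with hhdef
  set z : ℝ := (1 + (δ - 1) * c + h) / κ with hz
  have hz0 : 0 ≤ z := by
    apply div_nonneg _ hκ0.le
    have : 0 ≤ (δ - 1) * c := mul_nonneg (by linarith) hc
    linarith
  set n : ℕ := ⌊z⌋₊ + 1 with hn
  have hnz : z < n := by rw [hn]; push_cast; exact Nat.lt_floor_add_one z
  have hnz' : (n : ℝ) ≤ z + 1 := by rw [hn]; push_cast; linarith [Nat.floor_le hz0]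
  set R : ℕ := ⌊θ * n + c⌋₊ with hR
  have hRr : 0 ≤ θ * n + c := by positivity
  have hRle : (R : ℝ) ≤ θ * n + c := Nat.floor_le hRr
  have key : L < R + n := by
    by_contra hcon
    push Not at hcon
    -- pigeonhole
    have hcard : (cpl (par q k x L) n) ≤ R := Nat.le_floor (hlow n)
    obtain ⟨i, hi, j, hj, hij, he⟩ : ∃ i ∈ Finset.range (R + 1), ∃ j ∈ Finset.range (R + 1), i ≠ j ∧
        ((par q k x L).drop i).take n = ((par q k x L).drop j).take n := by
      apply Finset.exists_ne_map_eq_of_card_lt_of_maps_to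
        (t := (Finset.range ((par q k x L).length + 1 - n)).image
          fun i => ((par q k x L).drop i).take n)
      · rw [Finset.card_range]
        exact Nat.lt_succ_of_le hcard
      · intro i hi
        rw [Finset.mem_coe, Finset.mem_range] at hi
        rw [Finset.mem_coe]
        apply Finset.mem_image_of_mem
        rw [Finset.mem_range, par_length]
        omega
    rw [Finset.mem_range] at hi hj
    have hfac : ∀ a ≤ R, ((par q k x L).drop a).take n = par q k ((T q k)^[a] x) n := by
      intro a ha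
      obtain ⟨b, hb⟩ : ∃ b, L = a + (n + b) := ⟨L - a - n, by omega⟩
      rw [hb, par_add, List.drop_left' (par_length _ _ _ _), par_add,
        List.take_left' (par_length _ _ _ _)]
    rw [hfac i (by omega), hfac j (by omega)] at he
    have hagree : ∀ s < n, (T q k)^[s] ((T q k)^[i] x) % 2 = (T q k)^[s] ((T q k)^[j] x) % 2 := by
      intro s hs
      unfold par at he
      have h1 := List.map_inj_left.1 he s (List.mem_range.2 hs)
      rw [decide_eq_decide] at h1
      omega
    have hne : (T q k)^[i] x ≠ (T q k)^[j] x := by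
      intro heq
      exact hij (hinj i (by omega) j (by omega) heq)
    have h1 := run_le hq hk n _ _ hne hagree
    have h2 : mx k ((T q k)^[i] x) ((T q k)^[j] x) ≤ (q / 2) ^ R * (|(x : ℝ)| + |(k : ℝ)|) := by
      have aux : ∀ a ≤ R, |(((T q k)^[a] x : ℤ) : ℝ)| + |(k : ℝ)| ≤
          (q / 2) ^ R * (|(x : ℝ)| + |(k : ℝ)|) := by
        intro a ha
        have h3 := mx_iter_le hq hq3 hk a x x
        unfold mx at h3
        rw [max_self, max_self] at h3
        refine h3.trans (mul_le_mul_of_nonneg_right ?_ (by positivity))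
        exact pow_le_pow_right₀ (by linarith) ha
      unfold mx
      rcases max_choice |(((T q k)^[i] x : ℤ) : ℝ)| |(((T q k)^[j] x : ℤ) : ℝ)| with h | h <;> rw [h]
      · exact aux i (by omega)
      · exact aux j (by omega)
    have hk1 := one_le_abs_k hk
    have hx0 : 0 < |(x : ℝ)| + |(k : ℝ)| := by have := abs_nonneg (x : ℝ); linarith
    have h3 : Real.logb 2 (mx k ((T q k)^[i] x) ((T q k)^[j] x)) ≤ R * (δ - 1) + h := by
      have h4 := Real.logb_le_logb_of_le (b := 2) (by norm_num)
        (lt_of_lt_of_le zero_lt_one (one_le_mx hk _ _)) h2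
      rw [Real.logb_mul (by positivity) hx0.ne', Real.logb_pow,
        Real.logb_div (by linarith) (by norm_num), Real.logb_self_eq_one (by norm_num)] at h4
      exact h4
    have h5 : (R : ℝ) * (δ - 1) ≤ (θ * n + c) * (δ - 1) :=
      mul_le_mul_of_nonneg_right hRle (by linarith)
    have h6 : κ * n ≤ 1 + (δ - 1) * c + h := by
      rw [hκ]
      nlinarith
    have h7 : (n : ℝ) ≤ z := by
      rw [hz, le_div_iff₀ hκ0]
      linarith
    linarith
  have hL : (L : ℝ) ≤ R + n := by exact_mod_cast key.le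
  have h1 : (L : ℝ) ≤ (θ + 1) * (z + 1) + c := by
    have : θ * n ≤ θ * (z + 1) := mul_le_mul_of_nonneg_left hnz' hθ
    linarith
  have hz' : z = (1 + (δ - 1) * c) / κ + 1 / κ * h := by
    rw [hz]; field_simp
  set A1 : ℝ := (1 + (δ - 1) * c) / κ with hA1
  have hA10 : 0 ≤ A1 := by
    apply div_nonneg _ hκ0.le
    have : 0 ≤ (δ - 1) * c := mul_nonneg (by linarith) hc
    linarith
  have hκi : 0 ≤ 1 / κ := by positivity
  have h2 : z + 1 ≤ (A1 + 1 / κ + 1) * (1 + h) := by
    rw [hz']
    nlinarith [mul_nonneg hA10 hh, mul_nonneg hκi hh]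
  calc (L : ℝ) ≤ (θ + 1) * (z + 1) + c := h1
    _ ≤ (θ + 1) * ((A1 + 1 / κ + 1) * (1 + h)) + c * (1 + h) := by
        have e1 : (θ + 1) * (z + 1) ≤ (θ + 1) * ((A1 + 1 / κ + 1) * (1 + h)) :=
          mul_le_mul_of_nonneg_left h2 (by linarith)
        have e2 : c ≤ c * (1 + h) := by nlinarith
        linarith
    _ = ((θ + 1) * (A1 + 1 / κ + 1) + c) * (1 + h) := by ring

/-- **Several pieces.** -/
lemma pieces (hq : q % 2 = 1) (hq3 : 3 ≤ q) (hk : k % 2 = 1) {θ c κ G : ℝ} (hθ : 0 ≤ θ) (hc : 0 ≤ c)
    (hκ : κ = 1 - (Real.logb 2 q - 1) * θ) (hκ0 : 0 < κ)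
    (hG : G = 1 + (Real.logb 2 q - 1) *
      ((θ + 1) * ((1 + (Real.logb 2 q - 1) * c) / κ + 1 / κ + 1) + c)) (W : List (List Bool)) :
    ∀ (x : ℤ) (N : ℕ), W.flatten = par q k x N → (∀ u ∈ W, ∀ n, (cpl u n : ℝ) ≤ θ * n + c) →
      (∀ i < N, ∀ j < N, (T q k)^[i] x = (T q k)^[j] x → i = j) →
      1 + ht k x + (Real.logb 2 q - 1) * N ≤ G ^ W.length * (1 + ht k x) := by
  have hq3' : (3 : ℝ) ≤ q := by exact_mod_cast hq3
  have hδ : 1 ≤ Real.logb 2 q := by
    rw [Real.le_logb_iff_rpow_le (by norm_num) (by linarith), Real.rpow_one]; linarith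
  have hG0 : 0 ≤ G := by
    rw [hG]
    have h1 : 0 ≤ Real.logb 2 (q : ℝ) - 1 := by linarith
    positivity
  induction W with
  | nil =>
    intro x N hW _ _
    have h0 : N = 0 := by
      have h1 := congrArg List.length hW
      rw [par_length] at h1
      simpa using h1.symm
    subst h0
    simp
  | cons u W ih =>
    intro x N hW hlow hinj
    set L := u.length with hL
    have hlen := congrArg List.length hW
    rw [par_length, List.flatten_cons, List.length_append, ← hL] at hlen
    set N' := W.flatten.length with hN'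
    rw [← hlen, par_add, List.flatten_cons] at hW
    obtain ⟨h1, h2⟩ := List.append_inj hW (by rw [par_length])
    have h3 := piece hq hq3 hk hθ hc hκ hκ0 x L (by
      intro n
      rw [← h1]
      exact hlow u (by simp) n) (fun i hi j hj => hinj i (by omega) j (by omega))
    have h4 := ih ((T q k)^[L] x) N' h2 (fun v hv => hlow v (by simp [hv])) (by
      intro i hi j hj he
      rw [← Function.iterate_add_apply, ← Function.iterate_add_apply] at he
      have := hinj (i + L) (by omega) (j + L) (by omega) he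
      omega)
    have h5 := ht_iter_le hq hq3 hk x L
    have hh := ht_nonneg hk x
    have hh' := ht_nonneg hk ((T q k)^[L] x)
    set a : ℝ := (θ + 1) * ((1 + (Real.logb 2 q - 1) * c) / κ + 1 / κ + 1) + c with ha
    rw [List.length_cons, ← hlen]
    push_cast
    set δ : ℝ := Real.logb 2 q with hδdef
    set v : ℝ := 1 + ht k x + (δ - 1) * L with hv
    have h6 : v ≤ G * (1 + ht k x) := by
      rw [hG, hv]
      have := mul_le_mul_of_nonneg_left h3 (show 0 ≤ δ - 1 by linarith)
      linarith
    have h7 : 1 + ht k ((T q k)^[L] x) ≤ v := by rw [hv]; linarith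
    have hGm : 0 ≤ G ^ W.length := by positivity
    by_cases hG1 : 1 ≤ G
    · have hGm1 : 1 ≤ G ^ W.length := one_le_pow₀ hG1
      calc 1 + ht k x + (δ - 1) * (L + N') = v + (δ - 1) * N' := by rw [hv]; ring
        _ ≤ v + (G ^ W.length - 1) * (1 + ht k ((T q k)^[L] x)) := by linarith
        _ ≤ v + (G ^ W.length - 1) * v := by
            have := mul_le_mul_of_nonneg_left h7 (show 0 ≤ G ^ W.length - 1 by linarith)
            linarith
        _ = G ^ W.length * v := by ring
        _ ≤ G ^ W.length * (G * (1 + ht k x)) := mul_le_mul_of_nonneg_left h6 hGm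
        _ = G ^ (W.length + 1) * (1 + ht k x) := by ring
    · exfalso
      apply hG1
      rw [hG]
      have : 0 ≤ (δ - 1) * a := by
        have h1 : 0 ≤ δ - 1 := by linarith
        rw [ha]
        positivity
      linarith

end Pool.Agent.Y780.Cz
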