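import Mathlib
import Pool.Agent.Y780.Cz.Low

set_option autoImplicit false

/-!
# Parity words of low complexity: trajectories, cycles, Hamming distance
-/

open Finset

namespace Pool.Agent.Y780.Cz

lemma cpl_take_le (u : List Bool) (l n : ℕ) : cpl (u.take l) n ≤ cpl u n := by
  unfold cpl
  apply Finset.card_le_card
  intro w hw
  rw [Finset.mem_image] at hw ⊢
  obtain ⟨i, hi, rfl⟩ := hw
  rw [Finset.mem_range, List.length_take] at hi
  refine ⟨i, Finset.mem_range.2 (by omega), ?_⟩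
  have hl : i + n ≤ l ∨ n = 0 := by omega
  rcases hl with hl | hl
  · rw [List.drop_take, List.take_take, min_eq_left (by omega)]
  · subst hl; simp

lemma cpl_short (u : List Bool) (hu : u.length ≤ 1) (n : ℕ) : cpl u n ≤ 1 := by
  unfold cpl
  rcases Nat.eq_zero_or_pos n with h | h
  · subst h
    have : (Finset.range (u.length + 1 - 0)).image (fun i => (u.drop i).take 0) ⊆ {[]} := by
      intro w hw
      rw [Finset.mem_image] at hw
      obtain ⟨i, -, rfl⟩ := hw
      simp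
    exact (Finset.card_le_card this).trans (by simp)
  · refine Finset.card_image_le.trans ?_
    rw [Finset.card_range]
    omega

/-- The number of places in which two words differ. -/
def ham (u v : List Bool) : ℕ := ((u.zip v).filter fun a => a.1 != a.2).length

/-- A word at Hamming distance `D` from `v` is a concatenation of `2 D + 1` factors of `v` and
letters. -/
lemma ham_split (v : List Bool) : ∀ u : List Bool, u.length = v.length →
    ∃ (l : ℕ) (W : List (List Bool)), (v.take l) ++ W.flatten = u ∧ W.length ≤ 2 * ham u v ∧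
      ∀ w ∈ W, w.length ≤ 1 ∨ ∃ j l, w = (v.drop j).take l := by
  induction v with
  | nil =>
    intro u hu
    have : u = [] := List.length_eq_zero_iff.1 (by simpa using hu)
    subst this
    exact ⟨0, [], by simp, by simp, by simp⟩
  | cons b v ih =>
    intro u hu
    match u, hu with
    | [], hu => simp at hu
    | a :: u, hu =>
      obtain ⟨l, W, h1, h2, h3⟩ := ih u (by simpa using hu)
      by_cases hab : a = b
      · subst hab
        refine ⟨l + 1, W, ?_, ?_, ?_⟩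
        · rw [List.take_succ_cons, List.cons_append, h1]
        · refine h2.trans ?_
          unfold ham
          simp
        · intro w hw
          rcases h3 w hw with h | ⟨j, l, h⟩
          · exact Or.inl h
          · exact Or.inr ⟨j + 1, l, by rw [List.drop_succ_cons]; exact h⟩
      · refine ⟨0, [a] :: (v.take l) :: W, ?_, ?_, ?_⟩
        · simp [h1]
        · have : ham (a :: u) (b :: v) = ham u v + 1 := by
            unfold ham
            have : (a != b) = true := by simpa using hab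
            simp [this]
          rw [this]
          simp only [List.length_cons]
          omega
        · intro w hw
          rw [List.mem_cons, List.mem_cons] at hw
          rcases hw with rfl | rfl | hw
          · exact Or.inl (by simp)
          · exact Or.inr ⟨1, l, by simp⟩
          · rcases h3 w hw with h | ⟨j, l, h⟩
            · exact Or.inl h
            · exact Or.inr ⟨j + 1, l, by rw [List.drop_succ_cons]; exact h⟩

lemma log2_lt_one : Real.log 2 < 1 := by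
  have := Real.log_two_lt_d9
  linarith

/-- **Trajectories.** -/
theorem low_traj {q : ℤ} (hq : q % 2 = 1) (hq3 : 3 ≤ q) {θ c : ℝ} (hθ : 0 ≤ θ) (hc : 0 ≤ c)
    (hθ1 : (Real.log q / Real.log 2 - 1) * θ < 1) : ∃ B : ℝ, 1 ≤ B ∧ ∀ k : ℤ, k % 2 = 1 →
    ∀ (x : ℤ) (N : ℕ) (W : List (List Bool)), W.flatten = par q k x N →
      (∀ u ∈ W, ∀ n, (cpl u n : ℝ) ≤ θ * n + c) →
      (∀ i < N, ∀ j < N, (T q k)^[i] x = (T q k)^[j] x → i = j) →
      (N : ℝ) ≤ B ^ (W.length + 1) * (1 + Real.log (|(x : ℝ)| + |(k : ℝ)|)) := by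
  have hq3' : (3 : ℝ) ≤ q := by exact_mod_cast hq3
  have hl2 : 0 < Real.log 2 := Real.log_pos (by norm_num)
  have hδe : Real.log q / Real.log 2 = Real.logb 2 q := rfl
  rw [hδe] at hθ1
  set δ : ℝ := Real.logb 2 q with hδ
  have hδ1 : 1 < δ := by
    rw [hδ, Real.lt_logb_iff_rpow_lt (by norm_num) (by linarith), Real.rpow_one]; linarith
  have hκ0 : 0 < 1 - (δ - 1) * θ := by linarith
  set κ : ℝ := 1 - (δ - 1) * θ with hκ
  set G : ℝ := 1 + (δ - 1) * ((θ + 1) * ((1 + (δ - 1) * c) / κ + 1 / κ + 1) + c) with hG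
  have hG1 : 1 ≤ G := by
    rw [hG]
    have h1 : 0 ≤ δ - 1 := by linarith
    have : 0 ≤ (δ - 1) * ((θ + 1) * ((1 + (δ - 1) * c) / κ + 1 / κ + 1) + c) := by positivity
    linarith
  set B : ℝ := max G (1 / ((δ - 1) * Real.log 2)) with hB
  have hB1 : 1 ≤ B := hG1.trans (le_max_left _ _)
  refine ⟨B, hB1, fun k hk x N W hW hlow hinj => ?_⟩
  have h1 := pieces hq hq3 hk hθ hc hκ hκ0 hG W x N hW hlow hinj
  have hh := ht_nonneg hk x
  have h2 : (δ - 1) * N ≤ G ^ W.length * (1 + ht k x) := by linarith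
  have h3 : G ^ W.length ≤ B ^ W.length := pow_le_pow_left₀ (by linarith) (le_max_left _ _) _
  have hk1 := one_le_abs_k hk
  have hlog : 0 ≤ Real.log (|(x : ℝ)| + |(k : ℝ)|) := by
    apply Real.log_nonneg
    have := abs_nonneg (x : ℝ)
    linarith
  have h4 : 1 + ht k x ≤ (1 + Real.log (|(x : ℝ)| + |(k : ℝ)|)) / Real.log 2 := by
    unfold ht Real.logb
    rw [add_div]
    have : 1 ≤ 1 / Real.log 2 := by
      rw [le_div_iff₀ hl2]
      linarith [log2_lt_one]
    linarith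
  have h5 : (δ - 1) * N ≤ B ^ W.length * ((1 + Real.log (|(x : ℝ)| + |(k : ℝ)|)) / Real.log 2) :=
    h2.trans (mul_le_mul h3 h4 (by linarith) (by positivity))
  have h6 : (N : ℝ) ≤ 1 / ((δ - 1) * Real.log 2) *
      (B ^ W.length * (1 + Real.log (|(x : ℝ)| + |(k : ℝ)|))) := by
    have hd : 0 < δ - 1 := by linarith
    rw [div_mul_eq_mul_div, one_mul, le_div_iff₀ (by positivity)]
    calc (N : ℝ) * ((δ - 1) * Real.log 2) = ((δ - 1) * N) * Real.log 2 := by ring
      _ ≤ (B ^ W.length * ((1 + Real.log (|(x : ℝ)| + |(k : ℝ)|)) / Real.log 2)) * Real.log 2 :=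
          mul_le_mul_of_nonneg_right h5 hl2.le
      _ = _ := by field_simp
  calc (N : ℝ) ≤ 1 / ((δ - 1) * Real.log 2) *
      (B ^ W.length * (1 + Real.log (|(x : ℝ)| + |(k : ℝ)|))) := h6
    _ ≤ B * (B ^ W.length * (1 + Real.log (|(x : ℝ)| + |(k : ℝ)|))) :=
        mul_le_mul_of_nonneg_right (le_max_right _ _) (by positivity)
    _ = _ := by ring

/-- **Cycles.** -/
theorem low_cycle {q : ℕ} (hqp : q.Prime) (hq2 : q ≠ 2) {θ c : ℝ} (hθ : 0 ≤ θ) (hc : 0 ≤ c)
    (hθ1 : (Real.log q / Real.log 2 - 1) * θ < 1) : ∃ B : ℝ, 1 ≤ B ∧ ∀ k : ℤ, k % 2 = 1 →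
    ∀ (x : ℤ) (p : ℕ) (W : List (List Bool)), 1 ≤ p → (T q k)^[p] x = x →
      (∀ i < p, ∀ j < p, (T q k)^[i] x = (T q k)^[j] x → i = j) → W.flatten = par q k x p →
      (∀ u ∈ W, ∀ n, (cpl u n : ℝ) ≤ θ * n + c) →
      (p : ℝ) ≤ B ^ (W.length + 1) * (Real.log |(k : ℝ)| + (1 + Real.log p) ^ 2) := by
  obtain ⟨B0, hB0, hmin⟩ := Pool.Agent.H547R3.Sub.min_size hqp hq2
  have hq3 : 3 ≤ q := by
    have := hqp.two_le
    omega
  have hq1 : (q : ℤ) % 2 = 1 := by
    rcases hqp.eq_two_or_odd with h | h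
    · exact absurd h hq2
    · omega
  have hq3' : (3 : ℝ) ≤ q := by exact_mod_cast hq3
  have hq3z : (3 : ℤ) ≤ q := by exact_mod_cast hq3
  have hl2 : 0 < Real.log 2 := Real.log_pos (by norm_num)
  have hδe : Real.log q / Real.log 2 = Real.logb 2 ((q : ℤ) : ℝ) := by push_cast; rfl
  rw [hδe] at hθ1
  set δ : ℝ := Real.logb 2 ((q : ℤ) : ℝ) with hδ
  have hδ1 : 1 < δ := by
    rw [hδ, Real.lt_logb_iff_rpow_lt (by norm_num) (by push_cast; linarith), Real.rpow_one]
    push_cast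
    linarith
  have hκ0 : 0 < 1 - (δ - 1) * θ := by linarith
  set κ : ℝ := 1 - (δ - 1) * θ with hκ
  set G : ℝ := 1 + (δ - 1) * ((θ + 1) * ((1 + (δ - 1) * c) / κ + 1 / κ + 1) + c) with hG
  have hG1 : 1 ≤ G := by
    rw [hG]
    have h1 : 0 ≤ δ - 1 := by linarith
    have : 0 ≤ (δ - 1) * ((θ + 1) * ((1 + (δ - 1) * c) / κ + 1 / κ + 1) + c) := by positivity
    linarith
  set B1 : ℝ := max B0 1 with hB1
  have hB11 : 1 ≤ B1 := le_max_right _ _
  have hBB1 : B0 ≤ B1 := le_max_left _ _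
  set K : ℝ := 2 * B1 / ((δ - 1) * Real.log 2) with hK
  set B : ℝ := max (G ^ 2) K with hB
  have hG2 : 1 ≤ G ^ 2 := one_le_pow₀ hG1
  have hB1' : 1 ≤ B := hG2.trans (le_max_left _ _)
  refine ⟨B, hB1', fun k hk x p W hp hx hinj hW hlow => ?_⟩
  have hpR : (1 : ℝ) ≤ p := by exact_mod_cast hp
  have hlogp : 0 ≤ Real.log p := Real.log_nonneg hpR
  have hk1 : (1 : ℝ) ≤ |(k : ℝ)| := one_le_abs_k hk
  have hlogk : 0 ≤ Real.log |(k : ℝ)| := Real.log_nonneg hk1
  obtain ⟨i0, hi0, hi⟩ := hmin k hk x p hp hx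
  rw [Tm_eq] at hi
  set y := (T q k)^[i0] x with hy
  have hexi : ∃ b, p = i0 + b := ⟨p - i0, by omega⟩
  obtain ⟨b, hb⟩ := hexi
  obtain ⟨W', h1, h2, h3⟩ := flatten_drop W i0
  have hW' : W'.flatten = par q k y b := by
    rw [h1, hW, hb, par_add, List.drop_left' (par_length _ _ _ _)]
  have hlow' : ∀ u ∈ W', ∀ n, (cpl u n : ℝ) ≤ θ * n + c := by
    intro u hu n
    obtain ⟨v, hv, j, rfl⟩ := h3 u hu
    refine le_trans ?_ (hlow v hv n)
    exact_mod_cast cpl_drop_le v j n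
  have e1 := pieces hq1 hq3z hk hθ hc hκ hκ0 hG W' y b hW' hlow' (by
    intro i hi j hj he
    rw [hy, ← Function.iterate_add_apply, ← Function.iterate_add_apply] at he
    have := hinj (i + i0) (by omega) (j + i0) (by omega) he
    omega)
  have e2 : (T q k)^[b] y = x := by
    rw [hy, ← Function.iterate_add_apply, add_comm b i0, ← hb, hx]
  have e3 := ht_iter_le hq1 hq3z hk y b
  rw [e2] at e3
  have e4 := pieces hq1 hq3z hk hθ hc hκ hκ0 hG W x p hW hlow hinj
  have hhx := ht_nonneg hk x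
  have hhy := ht_nonneg hk y
  have e5 : 1 + ht k x ≤ G ^ W.length * (1 + ht k y) := by
    have h5 : G ^ W'.length ≤ G ^ W.length := pow_le_pow_right₀ hG1 h2
    have h6 : 1 + ht k x ≤ G ^ W'.length * (1 + ht k y) := by linarith
    exact h6.trans (mul_le_mul_of_nonneg_right h5 (by linarith))
  have e6 : (δ - 1) * p ≤ G ^ W.length * (G ^ W.length * (1 + ht k y)) := by
    have h7 : (δ - 1) * p ≤ G ^ W.length * (1 + ht k x) := by linarith
    exact h7.trans (mul_le_mul_of_nonneg_left e5 (by positivity))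
  set S : ℝ := (1 + Real.log p) ^ 2 with hS
  have hS1 : 1 ≤ S := by rw [hS]; nlinarith
  have e7 : 1 + ht k y ≤ 2 * B1 / Real.log 2 * (Real.log |(k : ℝ)| + S) := by
    have h8 : ht k y ≤ (Real.log |(k : ℝ)| + B0 * S) / Real.log 2 := by
      unfold ht Real.logb
      exact div_le_div_of_nonneg_right hi hl2.le
    have h9 : B0 * S ≤ B1 * S := mul_le_mul_of_nonneg_right hBB1 (by linarith)
    have h10 : (1 : ℝ) ≤ 1 / Real.log 2 := by
      rw [le_div_iff₀ hl2]
      linarith [log2_lt_one]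
    have h11 : 2 * B1 / Real.log 2 * (Real.log |(k : ℝ)| + S) =
        (2 * B1 * (Real.log |(k : ℝ)| + S)) / Real.log 2 := by ring
    rw [h11]
    calc 1 + ht k y ≤ 1 / Real.log 2 + (Real.log |(k : ℝ)| + B0 * S) / Real.log 2 := by linarith
      _ = (1 + Real.log |(k : ℝ)| + B0 * S) / Real.log 2 := by ring
      _ ≤ (2 * B1 * (Real.log |(k : ℝ)| + S)) / Real.log 2 := by
          apply div_le_div_of_nonneg_right _ hl2.le
          nlinarith [mul_nonneg (by linarith : 0 ≤ B1 - 1) hlogk]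
  have hd : 0 < δ - 1 := by linarith
  have hLS : 0 ≤ Real.log |(k : ℝ)| + S := by linarith
  have e8 : (p : ℝ) ≤ (G ^ 2) ^ W.length * (K * (Real.log |(k : ℝ)| + S)) := by
    have h12 : (δ - 1) * p ≤ (G ^ 2) ^ W.length * (2 * B1 / Real.log 2 * (Real.log |(k : ℝ)| + S)) := by
      calc (δ - 1) * p ≤ G ^ W.length * (G ^ W.length * (1 + ht k y)) := e6
        _ = (G ^ 2) ^ W.length * (1 + ht k y) := by rw [← pow_mul, mul_comm 2, pow_mul]; ring
        _ ≤ _ := mul_le_mul_of_nonneg_left e7 (by positivity)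
    have h13 : (G ^ 2) ^ W.length * (K * (Real.log |(k : ℝ)| + S)) =
        ((G ^ 2) ^ W.length * (2 * B1 / Real.log 2 * (Real.log |(k : ℝ)| + S))) / (δ - 1) := by
      rw [hK]; field_simp
    rw [h13, le_div_iff₀ hd]
    linarith
  calc (p : ℝ) ≤ (G ^ 2) ^ W.length * (K * (Real.log |(k : ℝ)| + S)) := e8
    _ ≤ B ^ W.length * (B * (Real.log |(k : ℝ)| + S)) := by
        apply mul_le_mul
        · exact pow_le_pow_left₀ (by positivity) (le_max_left _ _) _
        · exact mul_le_mul_of_nonneg_right (le_max_right _ _) hLS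
        · have : 0 ≤ K := by rw [hK]; positivity
          positivity
        · positivity
    _ = _ := by ring

/-- **Hamming distance.** -/
theorem low_ham {q : ℕ} (hqp : q.Prime) (hq2 : q ≠ 2) {θ c : ℝ} (hθ : 0 ≤ θ) (hc : 0 ≤ c)
    (hθ1 : (Real.log q / Real.log 2 - 1) * θ < 1) : ∃ B : ℝ, 1 ≤ B ∧ ∀ k : ℤ, k % 2 = 1 →
    ∀ (x : ℤ) (p : ℕ) (v : List Bool), 1 ≤ p → (T q k)^[p] x = x →
      (∀ i < p, ∀ j < p, (T q k)^[i] x = (T q k)^[j] x → i = j) → v.length = p →
      (∀ n, (cpl v n : ℝ) ≤ θ * n + c) →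
      (p : ℝ) ≤ B ^ (ham (par q k x p) v + 1) * (Real.log |(k : ℝ)| + (1 + Real.log p) ^ 2) := by
  obtain ⟨B, hB, h⟩ := low_cycle hqp hq2 (θ := θ) (c := max c 1) hθ (le_max_of_le_left hc) hθ1
  refine ⟨B ^ 2, one_le_pow₀ hB, fun k hk x p v hp hx hinj hv hlow => ?_⟩
  obtain ⟨l, W, h1, h2, h3⟩ := ham_split v (par q k x p) (by rw [par_length, hv])
  have h4 := h k hk x p (v.take l :: W) hp hx hinj (by rw [List.flatten_cons, h1]) (by
    intro u hu n
    rw [List.mem_cons] at hu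
    have hcc : c ≤ max c 1 := le_max_left _ _
    rcases hu with rfl | hu
    · have e1 : (cpl (v.take l) n : ℝ) ≤ cpl v n := by exact_mod_cast cpl_take_le v l n
      linarith [hlow n]
    · rcases h3 u hu with h5 | ⟨j, l', rfl⟩
      · have e1 : (cpl u n : ℝ) ≤ 1 := by exact_mod_cast cpl_short u h5 n
        have e2 : (1 : ℝ) ≤ max c 1 := le_max_right _ _
        have e3 : 0 ≤ θ * n := by positivity
        linarith
      · have e1 : (cpl ((v.drop j).take l') n : ℝ) ≤ cpl v n := by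
          exact_mod_cast (cpl_take_le (v.drop j) l' n).trans (cpl_drop_le v j n)
        linarith [hlow n])
  refine h4.trans (mul_le_mul_of_nonneg_right ?_ ?_)
  · rw [← pow_mul]
    apply pow_le_pow_right₀ hB
    rw [List.length_cons]
    omega
  · have : 0 ≤ Real.log |(k : ℝ)| := Real.log_nonneg (one_le_abs_k hk)
    positivity

/-- **Finiteness.** -/
theorem low_finite {q : ℕ} (hqp : q.Prime) (hq2 : q ≠ 2) {θ c : ℝ} (hθ : 0 ≤ θ) (hc : 0 ≤ c)
    (hθ1 : (Real.log q / Real.log 2 - 1) * θ < 1) {k : ℤ} (hk : k % 2 = 1) (m : ℕ) :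
    {x : ℤ | ∃ (p : ℕ) (W : List (List Bool)), 1 ≤ p ∧ (T q k)^[p] x = x ∧
      (∀ i < p, ∀ j < p, (T q k)^[i] x = (T q k)^[j] x → i = j) ∧ W.flatten = par q k x p ∧
      W.length ≤ m ∧ ∀ u ∈ W, ∀ n, (cpl u n : ℝ) ≤ θ * n + c}.Finite := by
  obtain ⟨B, hB, h⟩ := low_cycle hqp hq2 hθ hc hθ1
  have hq3 : 3 ≤ q := by
    have := hqp.two_le
    omega
  have hq1 : (q : ℤ) % 2 = 1 := by
    rcases hqp.eq_two_or_odd with h | h
    · exact absurd h hq2
    · omega
  obtain ⟨P, hP⟩ := bounded_of_log (B ^ (m + 1)) (Real.log |(k : ℝ)|) (by positivity)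
  refine Set.Finite.subset (Set.Finite.biUnion (Set.finite_Icc 1 P)
    (t := fun p => {x : ℤ | (T q k)^[p] x = x})
    (fun p hp => finite_period hq1 hk (Set.mem_Icc.1 hp).1)) ?_
  rintro x ⟨p, W, hp, hx, hinj, hW, hm, hlow⟩
  rw [Set.mem_iUnion₂]
  refine ⟨p, ⟨hp, hP p hp ?_⟩, hx⟩
  refine (h k hk x p W hp hx hinj hW hlow).trans ?_
  have : 0 ≤ Real.log |(k : ℝ)| := Real.log_nonneg (one_le_abs_k hk)
  exact mul_le_mul_of_nonneg_right (pow_le_pow_right₀ hB (by omega)) (by positivity)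

end Pool.Agent.Y780.Cz
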