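import Mathlib
import Pool.Agent.Y780.Cz.Low2
import Pool.Agent.TH932.S2.All
import Pool.Agent.TH932.S2.F.Fin

set_option autoImplicit false

/-!
# Parity words which are concatenations of words of linear complexity
-/

open Finset

namespace Pool.Agent.Y780.Cz

open Pool.Agent.TH932.Words Pool.Agent.TH932.S2 Pool.Agent.TH932.S2.F

/-- exponents -/
def dl (a : ZMod 2) : ℕ := if a = 1 then 1 else 0

/-- the affine maps -/
def TDq (q : ℕ) (hq : q % 2 = 1) (hq3 : 3 ≤ q) : Dt (ZMod 2) where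
  p := 2
  q := q
  M := q
  δ := dl
  β := fun a => (dl a : ℤ)
  hp := le_rfl
  hq := by omega
  hpq := by
    rw [Int.isCoprime_iff_gcd_eq_one]
    have h1 : Int.gcd ((q : ℕ) : ℤ) ((2 : ℕ) : ℤ) = Nat.gcd q 2 := rfl
    rw [h1]
    exact Nat.coprime_two_right.2 (Nat.odd_iff.2 hq)
  hpM := by omega
  hqM := by
    intro a
    unfold dl
    split_ifs
    · rw [pow_one]
    · rw [pow_zero]; omega
  hβM := by
    intro a
    unfold dl
    split_ifs
    · rw [Nat.cast_one, abs_one]; exact_mod_cast (by omega : 1 ≤ q)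
    · rw [Nat.cast_zero, abs_zero]; positivity

/-- parities -/
def fp (y : ℤ) : ZMod 2 := ((y : ℤ) : ZMod 2)

lemma fp_eq_one {a : ℤ} : fp a = 1 ↔ a % 2 = 1 := by
  have h1 : (1 : ZMod 2) = ((1 : ℤ) : ZMod 2) := by simp
  unfold fp
  rw [h1, ZMod.intCast_eq_intCast_iff, Int.ModEq]
  norm_num

lemma mp_T {q : ℕ} (hq : q % 2 = 1) (hq3 : 3 ≤ q) {k : ℤ} (hk : k % 2 = 1) :
    Mp (TDq q hq hq3) k fp (T q k) where
  hd := by
    change IsCoprime k ((2 : ℕ) : ℤ)
    rw [Int.isCoprime_iff_gcd_eq_one]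
    have h1 : Int.gcd k ((2 : ℕ) : ℤ) = Nat.gcd k.natAbs 2 := rfl
    rw [h1]
    exact Nat.coprime_two_right.2 (Nat.odd_iff.2 (by omega))
  hG := by
    intro y
    change ((2 : ℕ) : ℤ) * T q k y = ((q : ℕ) : ℤ) ^ dl (fp y) * y + k * (dl (fp y) : ℤ)
    have hqz : ((q : ℕ) : ℤ) % 2 = 1 := by omega
    by_cases h1 : y % 2 = 0
    · have hw : dl (fp y) = 0 := by
        unfold dl
        rw [if_neg]
        rw [fp_eq_one]; omega
      rw [hw]
      push_cast
      have := two_mul_even (q := q) (k := k) y h1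
      linarith
    · have hw : dl (fp y) = 1 := by
        unfold dl
        rw [if_pos]
        rw [fp_eq_one]; omega
      rw [hw]
      push_cast
      have := two_mul_odd hqz hk y h1
      linarith

lemma par_factor (q k x : ℤ) {L a n : ℕ} (h : a + n ≤ L) :
    ((par q k x L).drop a).take n = par q k ((T q k)^[a] x) n := by
  obtain ⟨b, hb⟩ : ∃ b, L = a + (n + b) := ⟨L - a - n, by omega⟩
  rw [hb, par_add, List.drop_left' (par_length _ _ _ _), par_add,
    List.take_left' (par_length _ _ _ _)]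

/-- the two notions of complexity -/
lemma wc_le_cpl (q : ℕ) (k x : ℤ) {H L : ℕ} (hHL : H ≤ L) (m : ℕ) :
    wc (wd fp (T q k) x) H m ≤ cpl (par q k x L) m := by
  classical
  unfold wc cpl
  set φ : (Fin m → ZMod 2) → List Bool := fun v => List.ofFn fun j => decide (v j = 1) with hφ
  have hφi : Function.Injective φ := by
    intro u v huv
    have h1 := List.ofFn_injective huv
    funext j
    have h2 := congrFun h1 j
    simp only [decide_eq_decide] at h2
    have h01 : ∀ a : ZMod 2, a = 0 ∨ a = 1 := by decide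
    rcases h01 (u j) with h3 | h3
    · rcases h01 (v j) with h4 | h4
      · rw [h3, h4]
      · have := h2.2 h4; rw [this, h4]
    · rw [h3, h2.1 h3]
  rw [← Set.ncard_image_of_injective _ hφi, ← Set.ncard_coe_finset]
  apply Set.ncard_le_ncard _ (Finset.finite_toSet _)
  rintro _ ⟨_, ⟨i, hi, rfl⟩, rfl⟩
  rw [Set.mem_ofPred_eq] at hi
  rw [Finset.mem_coe, Finset.mem_image]
  refine ⟨i, ?_, ?_⟩
  · rw [Finset.mem_range, par_length]
    omega
  · rw [par_factor _ _ _ (by omega)]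
    unfold par
    rw [hφ]
    simp only
    rw [List.ofFn_eq_map, ← List.map_coe_finRange_eq_range, List.map_map]
    apply List.map_congr_left
    intro j _
    simp only [Function.comp]
    have e : (T q k)^[(j : ℕ)] ((T q k)^[i] x) = (T q k)^[i + j] x := by
      rw [add_comm i, Function.iterate_add_apply]
    rw [decide_eq_decide]
    unfold fac wd
    rw [fp_eq_one, e]

lemma log_le_ht {k : ℤ} (hk : k % 2 = 1) (x : ℤ) : Real.log (|(x : ℝ)| + |(k : ℝ)|) ≤ ht k x := by
  unfold ht Real.logb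
  have hl2 : 0 < Real.log 2 := Real.log_pos (by norm_num)
  have h0 : 0 ≤ Real.log (|(x : ℝ)| + |(k : ℝ)|) := by
    apply Real.log_nonneg
    have := abs_nonneg (x : ℝ)
    have := one_le_abs_k hk
    linarith
  rw [le_div_iff₀ hl2]
  nlinarith [log2_lt_one]

/-- **One piece of linear complexity.** -/
lemma piece2 {q : ℕ} (hq : q % 2 = 1) (hq3 : 3 ≤ q) (A : ℝ) : ∃ K : ℕ, 1 ≤ K ∧
    ∀ k : ℤ, k % 2 = 1 → ∀ (x : ℤ) (M L : ℕ), 1 ≤ M →
      (∀ n, M ≤ n → (cpl (par q k x L) n : ℝ) ≤ A * n) →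
      (∀ i < L, ∀ j < L, (T q k)^[i] x = (T q k)^[j] x → i = j) →
      (L : ℝ) ≤ 2 * K * (M + ht k x) := by
  obtain ⟨K, hK, h⟩ := fin1 bd_thm (TDq q hq hq3) A
  refine ⟨K, hK, fun k hk x M L hM hlow hinj => ?_⟩
  have hk1 := one_le_abs_k hk
  have hx0 := abs_nonneg (x : ℝ)
  set s : ℝ := |(x : ℝ)| + |(k : ℝ)| with hs
  have hs1 : 1 ≤ s := by rw [hs]; linarith
  have hls : 0 ≤ Real.log s := Real.log_nonneg hs1
  set N : ℕ := M + ⌈Real.log s⌉₊ with hN
  have hN1 : Real.log s ≤ N := by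
    rw [hN]; push_cast
    have := Nat.le_ceil (Real.log s)
    have : (0 : ℝ) ≤ M := Nat.cast_nonneg _
    linarith
  have hN2 : (N : ℝ) ≤ M + Real.log s + 1 := by
    rw [hN]; push_cast
    have := Nat.ceil_lt_add_one hls
    linarith
  have hsN : s ≤ Real.exp N := by
    rw [← Real.exp_log (by linarith : 0 < s)]
    exact Real.exp_le_exp.2 hN1
  have hKr : (1 : ℝ) ≤ K := by exact_mod_cast hK
  have hMr : (1 : ℝ) ≤ M := by exact_mod_cast hM
  have hLe : L ≤ K * N := by
    by_contra hcon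
    push Not at hcon
    obtain ⟨i, j, hij, hj, he⟩ := h N (by omega) k fp (T q k) (mp_T hq hq3 hk) (by linarith) x
      (by linarith) (fun m hm1 hm2 => by
        refine le_trans ?_ (hlow m (by omega))
        exact_mod_cast wc_le_cpl q k x hcon.le m)
    have := hinj i (by omega) j (by omega) he
    omega
  have h1 : (L : ℝ) ≤ K * N := by exact_mod_cast hLe
  have h2 := log_le_ht hk x
  calc (L : ℝ) ≤ K * N := h1
    _ ≤ K * (M + Real.log s + 1) := mul_le_mul_of_nonneg_left hN2 (by linarith)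
    _ ≤ K * (2 * (M + ht k x)) := by
        apply mul_le_mul_of_nonneg_left _ (by linarith)
        have := ht_nonneg hk x
        linarith
    _ = _ := by ring

/-- **Several pieces**, general form. -/
lemma pieces_gen {q k : ℤ} (hq : q % 2 = 1) (hq3 : 3 ≤ q) (hk : k % 2 = 1) (P : List Bool → Prop)
    {a M G : ℝ} (ha : 0 ≤ a) (hM : 1 ≤ M) (hG : G = 1 + (Real.logb 2 q - 1) * a)
    (hP : ∀ (x : ℤ) (L : ℕ), P (par q k x L) →
      (∀ i < L, ∀ j < L, (T q k)^[i] x = (T q k)^[j] x → i = j) → (L : ℝ) ≤ a * (M + ht k x))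
    (W : List (List Bool)) :
    ∀ (x : ℤ) (N : ℕ), W.flatten = par q k x N → (∀ u ∈ W, P u) →
      (∀ i < N, ∀ j < N, (T q k)^[i] x = (T q k)^[j] x → i = j) →
      M + ht k x + (Real.logb 2 q - 1) * N ≤ G ^ W.length * (M + ht k x) := by
  have hq3' : (3 : ℝ) ≤ q := by exact_mod_cast hq3
  have hδ : 1 ≤ Real.logb 2 q := by
    rw [Real.le_logb_iff_rpow_le (by norm_num) (by linarith), Real.rpow_one]; linarith
  have hG1 : 1 ≤ G := by
    rw [hG]
    have h1 : 0 ≤ Real.logb 2 (q : ℝ) - 1 := by linarith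
    have : 0 ≤ (Real.logb 2 (q : ℝ) - 1) * a := mul_nonneg h1 ha
    linarith
  induction W with
  | nil =>
    intro x N hW _ _
    have h0 : N = 0 := by
      have h1 := congrArg List.length hW
      rw [par_length] at h1
      simpa using h1.symm
    subst h0
    simp
  | cons u W ih =>
    intro x N hW hlow hinj
    set L := u.length with hL
    have hlen := congrArg List.length hW
    rw [par_length, List.flatten_cons, List.length_append, ← hL] at hlen
    set N' := W.flatten.length with hN'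
    rw [← hlen, par_add, List.flatten_cons] at hW
    obtain ⟨h1, h2⟩ := List.append_inj hW (by rw [par_length])
    have h3 := hP x L (by rw [← h1]; exact hlow u (by simp))
      (fun i hi j hj => hinj i (by omega) j (by omega))
    have h4 := ih ((T q k)^[L] x) N' h2 (fun v hv => hlow v (by simp [hv])) (by
      intro i hi j hj he
      rw [← Function.iterate_add_apply, ← Function.iterate_add_apply] at he
      have := hinj (i + L) (by omega) (j + L) (by omega) he
      omega)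
    have h5 := ht_iter_le hq hq3 hk x L
    have hh := ht_nonneg hk x
    have hh' := ht_nonneg hk ((T q k)^[L] x)
    rw [List.length_cons, ← hlen]
    push_cast
    set δ : ℝ := Real.logb 2 q with hδdef
    set v : ℝ := M + ht k x + (δ - 1) * L with hv
    have h6 : v ≤ G * (M + ht k x) := by
      rw [hG, hv]
      have := mul_le_mul_of_nonneg_left h3 (show 0 ≤ δ - 1 by linarith)
      linarith
    have h7 : M + ht k ((T q k)^[L] x) ≤ v := by rw [hv]; linarith
    have hGm : 0 ≤ G ^ W.length := by positivity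
    have hGm1 : 1 ≤ G ^ W.length := one_le_pow₀ hG1
    calc M + ht k x + (δ - 1) * (L + N') = v + (δ - 1) * N' := by rw [hv]; ring
      _ ≤ v + (G ^ W.length - 1) * (M + ht k ((T q k)^[L] x)) := by linarith
      _ ≤ v + (G ^ W.length - 1) * v := by
          have := mul_le_mul_of_nonneg_left h7 (show 0 ≤ G ^ W.length - 1 by linarith)
          linarith
      _ = G ^ W.length * v := by ring
      _ ≤ G ^ W.length * (G * (M + ht k x)) := mul_le_mul_of_nonneg_left h6 hGm
      _ = G ^ (W.length + 1) * (M + ht k x) := by ring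

/-- **Trajectories.** -/
theorem lin_traj {q : ℕ} (hq : q % 2 = 1) (hq3 : 3 ≤ q) (A : ℝ) : ∃ B : ℝ, 1 ≤ B ∧
    ∀ k : ℤ, k % 2 = 1 → ∀ (x : ℤ) (M N : ℕ) (W : List (List Bool)), 1 ≤ M →
      W.flatten = par q k x N → (∀ u ∈ W, ∀ n, M ≤ n → (cpl u n : ℝ) ≤ A * n) →
      (∀ i < N, ∀ j < N, (T q k)^[i] x = (T q k)^[j] x → i = j) →
      (N : ℝ) ≤ B ^ (W.length + 1) * (M + Real.log (|(x : ℝ)| + |(k : ℝ)|)) := by
  have hq3' : (3 : ℝ) ≤ q := by exact_mod_cast hq3
  have hq3z : (3 : ℤ) ≤ q := by exact_mod_cast hq3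
  have hqz : ((q : ℕ) : ℤ) % 2 = 1 := by omega
  have hl2 : 0 < Real.log 2 := Real.log_pos (by norm_num)
  obtain ⟨K, hK, hpiece⟩ := piece2 hq hq3 A
  have hKr : (1 : ℝ) ≤ K := by exact_mod_cast hK
  set δ : ℝ := Real.logb 2 ((q : ℤ) : ℝ) with hδ
  have hδ1 : 1 < δ := by
    rw [hδ, Real.lt_logb_iff_rpow_lt (by norm_num) (by push_cast; linarith), Real.rpow_one]
    push_cast
    linarith
  set G : ℝ := 1 + (δ - 1) * (2 * K) with hG
  have hG1 : 1 ≤ G := by
    rw [hG]
    have h1 : 0 ≤ δ - 1 := by linarith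
    have : 0 ≤ (δ - 1) * (2 * K) := by positivity
    linarith
  set B : ℝ := max G (1 / ((δ - 1) * Real.log 2)) with hB
  have hB1 : 1 ≤ B := hG1.trans (le_max_left _ _)
  refine ⟨B, hB1, fun k hk x M N W hM hW hlow hinj => ?_⟩
  have hMr : (1 : ℝ) ≤ M := by exact_mod_cast hM
  have h1 := pieces_gen hqz hq3z hk (fun u => ∀ n, M ≤ n → (cpl u n : ℝ) ≤ A * n)
    (a := 2 * K) (M := M) (by positivity) hMr hG
    (fun x L hl hi => hpiece k hk x M L hM hl hi) W x N hW hlow hinj
  have hh := ht_nonneg hk x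
  have h2 : (δ - 1) * N ≤ G ^ W.length * (M + ht k x) := by linarith
  have h3 : G ^ W.length ≤ B ^ W.length := pow_le_pow_left₀ (by linarith) (le_max_left _ _) _
  have hk1 := one_le_abs_k hk
  have hlog : 0 ≤ Real.log (|(x : ℝ)| + |(k : ℝ)|) := by
    apply Real.log_nonneg
    have := abs_nonneg (x : ℝ)
    linarith
  have h4 : M + ht k x ≤ (M + Real.log (|(x : ℝ)| + |(k : ℝ)|)) / Real.log 2 := by
    unfold ht Real.logb
    rw [add_div]
    have : (M : ℝ) ≤ M / Real.log 2 := by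
      rw [le_div_iff₀ hl2]
      nlinarith [log2_lt_one]
    linarith
  have h5 : (δ - 1) * N ≤ B ^ W.length * ((M + Real.log (|(x : ℝ)| + |(k : ℝ)|)) / Real.log 2) :=
    h2.trans (mul_le_mul h3 h4 (by linarith) (by positivity))
  have h6 : (N : ℝ) ≤ 1 / ((δ - 1) * Real.log 2) *
      (B ^ W.length * (M + Real.log (|(x : ℝ)| + |(k : ℝ)|))) := by
    have hd : 0 < δ - 1 := by linarith
    rw [div_mul_eq_mul_div, one_mul, le_div_iff₀ (by positivity)]
    calc (N : ℝ) * ((δ - 1) * Real.log 2) = ((δ - 1) * N) * Real.log 2 := by ring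
      _ ≤ (B ^ W.length * ((M + Real.log (|(x : ℝ)| + |(k : ℝ)|)) / Real.log 2)) * Real.log 2 :=
          mul_le_mul_of_nonneg_right h5 hl2.le
      _ = _ := by field_simp
  calc (N : ℝ) ≤ 1 / ((δ - 1) * Real.log 2) *
      (B ^ W.length * (M + Real.log (|(x : ℝ)| + |(k : ℝ)|))) := h6
    _ ≤ B * (B ^ W.length * (M + Real.log (|(x : ℝ)| + |(k : ℝ)|))) :=
        mul_le_mul_of_nonneg_right (le_max_right _ _) (by positivity)
    _ = _ := by ring

/-- **Cycles.** -/
theorem lin_cycle {q : ℕ} (hqp : q.Prime) (hq2 : q ≠ 2) (A : ℝ) : ∃ B : ℝ, 1 ≤ B ∧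
    ∀ k : ℤ, k % 2 = 1 → ∀ (x : ℤ) (M p : ℕ) (W : List (List Bool)), 1 ≤ M → 1 ≤ p →
      (T q k)^[p] x = x → (∀ i < p, ∀ j < p, (T q k)^[i] x = (T q k)^[j] x → i = j) →
      W.flatten = par q k x p → (∀ u ∈ W, ∀ n, M ≤ n → (cpl u n : ℝ) ≤ A * n) →
      (p : ℝ) ≤ B ^ (W.length + 1) * (M + Real.log |(k : ℝ)| + (1 + Real.log p) ^ 2) := by
  obtain ⟨B0, hB0, hmin⟩ := Pool.Agent.H547R3.Sub.min_size hqp hq2
  have hq3 : 3 ≤ q := by
    have := hqp.two_le
    omega
  have hqn : q % 2 = 1 := by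
    rcases hqp.eq_two_or_odd with h | h
    · exact absurd h hq2
    · exact h
  have hq1 : (q : ℤ) % 2 = 1 := by omega
  have hq3' : (3 : ℝ) ≤ q := by exact_mod_cast hq3
  have hq3z : (3 : ℤ) ≤ q := by exact_mod_cast hq3
  have hl2 : 0 < Real.log 2 := Real.log_pos (by norm_num)
  obtain ⟨K1, hK1, hpiece⟩ := piece2 hqn hq3 A
  set δ : ℝ := Real.logb 2 ((q : ℤ) : ℝ) with hδ
  have hδ1 : 1 < δ := by
    rw [hδ, Real.lt_logb_iff_rpow_lt (by norm_num) (by push_cast; linarith), Real.rpow_one]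
    push_cast
    linarith
  set G : ℝ := 1 + (δ - 1) * (2 * K1) with hG
  have hG1 : 1 ≤ G := by
    rw [hG]
    have h1 : 0 ≤ δ - 1 := by linarith
    have : 0 ≤ (δ - 1) * (2 * K1) := by positivity
    linarith
  set B1 : ℝ := max B0 1 with hB1
  have hB11 : 1 ≤ B1 := le_max_right _ _
  have hBB1 : B0 ≤ B1 := le_max_left _ _
  set K : ℝ := B1 / ((δ - 1) * Real.log 2) with hK
  set B : ℝ := max (G ^ 2) K with hB
  have hG2 : 1 ≤ G ^ 2 := one_le_pow₀ hG1
  have hB1' : 1 ≤ B := hG2.trans (le_max_left _ _)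
  refine ⟨B, hB1', fun k hk x M p W hM hp hx hinj hW hlow => ?_⟩
  have hMr : (1 : ℝ) ≤ M := by exact_mod_cast hM
  have hpR : (1 : ℝ) ≤ p := by exact_mod_cast hp
  have hlogp : 0 ≤ Real.log p := Real.log_nonneg hpR
  have hk1 : (1 : ℝ) ≤ |(k : ℝ)| := one_le_abs_k hk
  have hlogk : 0 ≤ Real.log |(k : ℝ)| := Real.log_nonneg hk1
  obtain ⟨i0, hi0, hi⟩ := hmin k hk x p hp hx
  rw [Tm_eq] at hi
  set y := (T q k)^[i0] x with hy
  obtain ⟨b, hb⟩ : ∃ b, p = i0 + b := ⟨p - i0, by omega⟩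
  obtain ⟨W', h1, h2, h3⟩ := flatten_drop W i0
  have hW' : W'.flatten = par q k y b := by
    rw [h1, hW, hb, par_add, List.drop_left' (par_length _ _ _ _)]
  have hlow' : ∀ u ∈ W', ∀ n, M ≤ n → (cpl u n : ℝ) ≤ A * n := by
    intro u hu n hn
    obtain ⟨v, hv, j, rfl⟩ := h3 u hu
    refine le_trans ?_ (hlow v hv n hn)
    exact_mod_cast cpl_drop_le v j n
  have hgen := pieces_gen hq1 hq3z hk (fun u => ∀ n, M ≤ n → (cpl u n : ℝ) ≤ A * n)
    (a := 2 * K1) (M := M) (by positivity) hMr hG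
    (fun x L hl hi => hpiece k hk x M L hM hl hi)
  have e1 := hgen W' y b hW' hlow' (by
    intro i hi j hj he
    rw [hy, ← Function.iterate_add_apply, ← Function.iterate_add_apply] at he
    have := hinj (i + i0) (by omega) (j + i0) (by omega) he
    omega)
  have e2 : (T q k)^[b] y = x := by
    rw [hy, ← Function.iterate_add_apply, add_comm b i0, ← hb, hx]
  have e3 := ht_iter_le hq1 hq3z hk y b
  rw [e2] at e3
  have e4 := hgen W x p hW hlow hinj
  have hhx := ht_nonneg hk x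
  have hhy := ht_nonneg hk y
  have e5 : M + ht k x ≤ G ^ W.length * (M + ht k y) := by
    have h5 : G ^ W'.length ≤ G ^ W.length := pow_le_pow_right₀ hG1 h2
    have h6 : M + ht k x ≤ G ^ W'.length * (M + ht k y) := by linarith
    exact h6.trans (mul_le_mul_of_nonneg_right h5 (by linarith))
  have e6 : (δ - 1) * p ≤ G ^ W.length * (G ^ W.length * (M + ht k y)) := by
    have h7 : (δ - 1) * p ≤ G ^ W.length * (M + ht k x) := by linarith
    exact h7.trans (mul_le_mul_of_nonneg_left e5 (by positivity))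
  set S : ℝ := (1 + Real.log p) ^ 2 with hS
  have hS1 : 1 ≤ S := by rw [hS]; nlinarith
  have e7 : M + ht k y ≤ B1 / Real.log 2 * (M + Real.log |(k : ℝ)| + S) := by
    have h8 : ht k y ≤ (Real.log |(k : ℝ)| + B0 * S) / Real.log 2 := by
      unfold ht Real.logb
      exact div_le_div_of_nonneg_right hi hl2.le
    have h9 : B0 * S ≤ B1 * S := mul_le_mul_of_nonneg_right hBB1 (by linarith)
    have h10 : (M : ℝ) ≤ M / Real.log 2 := by
      rw [le_div_iff₀ hl2]
      nlinarith [log2_lt_one]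
    have h11 : B1 / Real.log 2 * (M + Real.log |(k : ℝ)| + S) =
        (B1 * (M + Real.log |(k : ℝ)| + S)) / Real.log 2 := by ring
    rw [h11]
    calc M + ht k y ≤ M / Real.log 2 + (Real.log |(k : ℝ)| + B0 * S) / Real.log 2 := by linarith
      _ = (M + Real.log |(k : ℝ)| + B0 * S) / Real.log 2 := by ring
      _ ≤ (B1 * (M + Real.log |(k : ℝ)| + S)) / Real.log 2 := by
          apply div_le_div_of_nonneg_right _ hl2.le
          nlinarith [mul_nonneg (by linarith : 0 ≤ B1 - 1) hlogk,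
            mul_nonneg (by linarith : 0 ≤ B1 - 1) (by linarith : (0 : ℝ) ≤ M)]
  have hd : 0 < δ - 1 := by linarith
  have hLS : 0 ≤ M + Real.log |(k : ℝ)| + S := by linarith
  have e8 : (p : ℝ) ≤ (G ^ 2) ^ W.length * (K * (M + Real.log |(k : ℝ)| + S)) := by
    have h12 : (δ - 1) * p ≤
        (G ^ 2) ^ W.length * (B1 / Real.log 2 * (M + Real.log |(k : ℝ)| + S)) := by
      calc (δ - 1) * p ≤ G ^ W.length * (G ^ W.length * (M + ht k y)) := e6
        _ = (G ^ 2) ^ W.length * (M + ht k y) := by rw [← pow_mul, mul_comm 2, pow_mul]; ring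
        _ ≤ _ := mul_le_mul_of_nonneg_left e7 (by positivity)
    have h13 : (G ^ 2) ^ W.length * (K * (M + Real.log |(k : ℝ)| + S)) =
        ((G ^ 2) ^ W.length * (B1 / Real.log 2 * (M + Real.log |(k : ℝ)| + S))) / (δ - 1) := by
      rw [hK]; field_simp
    rw [h13, le_div_iff₀ hd]
    linarith
  calc (p : ℝ) ≤ (G ^ 2) ^ W.length * (K * (M + Real.log |(k : ℝ)| + S)) := e8
    _ ≤ B ^ W.length * (B * (M + Real.log |(k : ℝ)| + S)) := by
        apply mul_le_mul
        · exact pow_le_pow_left₀ (by positivity) (le_max_left _ _) _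
        · exact mul_le_mul_of_nonneg_right (le_max_right _ _) hLS
        · have : 0 ≤ K := by rw [hK]; positivity
          positivity
        · positivity
    _ = _ := by ring

/-- pieces of a word near a word of low complexity -/
lemma ham_pieces {A : ℝ} (hA : 1 ≤ A) {M : ℕ} (hM : 1 ≤ M) (u v : List Bool)
    (h : u.length = v.length) (hlow : ∀ n, M ≤ n → (cpl v n : ℝ) ≤ A * n) :
    ∃ W : List (List Bool), W.flatten = u ∧ W.length ≤ 2 * ham u v + 1 ∧
      ∀ w ∈ W, ∀ n, M ≤ n → (cpl w n : ℝ) ≤ A * n := by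
  obtain ⟨l, W, h1, h2, h3⟩ := ham_split v u h
  refine ⟨v.take l :: W, by rw [List.flatten_cons, h1], by rw [List.length_cons]; omega, ?_⟩
  intro w hw n hn
  rw [List.mem_cons] at hw
  have hn1 : (1 : ℝ) ≤ n := by exact_mod_cast hM.trans hn
  rcases hw with rfl | hw
  · have e1 : (cpl (v.take l) n : ℝ) ≤ cpl v n := by exact_mod_cast cpl_take_le v l n
    linarith [hlow n hn]
  · rcases h3 w hw with h5 | ⟨j, l', rfl⟩
    · have e1 : (cpl w n : ℝ) ≤ 1 := by exact_mod_cast cpl_short w h5 n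
      nlinarith
    · have e1 : (cpl ((v.drop j).take l') n : ℝ) ≤ cpl v n := by
        exact_mod_cast (cpl_take_le (v.drop j) l' n).trans (cpl_drop_le v j n)
      linarith [hlow n hn]

/-- **Hamming distance.** -/
theorem lin_ham_cycle {q : ℕ} (hqp : q.Prime) (hq2 : q ≠ 2) (A : ℝ) : ∃ B : ℝ, 1 ≤ B ∧
    ∀ k : ℤ, k % 2 = 1 → ∀ (x : ℤ) (M p : ℕ) (v : List Bool), 1 ≤ M → 1 ≤ p →
      (T q k)^[p] x = x → (∀ i < p, ∀ j < p, (T q k)^[i] x = (T q k)^[j] x → i = j) →
      v.length = p → (∀ n, M ≤ n → (cpl v n : ℝ) ≤ A * n) →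
      (p : ℝ) ≤ B ^ (ham (par q k x p) v + 1) *
        (M + Real.log |(k : ℝ)| + (1 + Real.log p) ^ 2) := by
  obtain ⟨B, hB, h⟩ := lin_cycle hqp hq2 (max A 1)
  refine ⟨B ^ 2, one_le_pow₀ hB, fun k hk x M p v hM hp hx hinj hv hlow => ?_⟩
  obtain ⟨W, h1, h2, h3⟩ := ham_pieces (A := max A 1) (le_max_right _ _) hM (par q k x p) v
    (by rw [par_length, hv]) (fun n hn => (hlow n hn).trans (by gcongr; exact le_max_left _ _))
  refine (h k hk x M p W hM hp hx hinj h1 h3).trans (mul_le_mul_of_nonneg_right ?_ ?_)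
  · rw [← pow_mul]
    apply pow_le_pow_right₀ hB
    omega
  · have : 0 ≤ Real.log |(k : ℝ)| := Real.log_nonneg (one_le_abs_k hk)
    positivity

/-- **Hamming distance**, trajectories. -/
theorem lin_ham_traj {q : ℕ} (hq : q % 2 = 1) (hq3 : 3 ≤ q) (A : ℝ) : ∃ B : ℝ, 1 ≤ B ∧
    ∀ k : ℤ, k % 2 = 1 → ∀ (x : ℤ) (M N : ℕ) (v : List Bool), 1 ≤ M →
      (∀ i < N, ∀ j < N, (T q k)^[i] x = (T q k)^[j] x → i = j) →
      v.length = N → (∀ n, M ≤ n → (cpl v n : ℝ) ≤ A * n) →
      (N : ℝ) ≤ B ^ (ham (par q k x N) v + 1) * (M + Real.log (|(x : ℝ)| + |(k : ℝ)|)) := by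
  obtain ⟨B, hB, h⟩ := lin_traj hq hq3 (max A 1)
  refine ⟨B ^ 2, one_le_pow₀ hB, fun k hk x M N v hM hinj hv hlow => ?_⟩
  obtain ⟨W, h1, h2, h3⟩ := ham_pieces (A := max A 1) (le_max_right _ _) hM (par q k x N) v
    (by rw [par_length, hv]) (fun n hn => (hlow n hn).trans (by gcongr; exact le_max_left _ _))
  refine (h k hk x M N W hM h1 h3 hinj).trans (mul_le_mul_of_nonneg_right ?_ ?_)
  · rw [← pow_mul]
    apply pow_le_pow_right₀ hB
    omega
  · have hk1 := one_le_abs_k hk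
    have : 0 ≤ Real.log (|(x : ℝ)| + |(k : ℝ)|) := by
      apply Real.log_nonneg
      have := abs_nonneg (x : ℝ)
      linarith
    positivity

/-- a lower bound in terms of the period -/
lemma lower_of_upper {B E : ℝ} (hB : 1 ≤ B) (hE : 0 ≤ E) : ∃ C : ℝ, ∀ (p D : ℕ), 1 ≤ p →
    (p : ℝ) ≤ B ^ (D + 1) * (E + (1 + Real.log p) ^ 2) →
      Real.log p / (2 * Real.log (B + 1)) - C ≤ D := by
  have hB1 : 0 < Real.log (B + 1) := Real.log_pos (by linarith)
  -- `E + (1 + log p)^2 ≤ C1 * sqrt p`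
  obtain ⟨C1, hC1, h1⟩ : ∃ C1 : ℝ, 1 ≤ C1 ∧ ∀ p : ℕ, 1 ≤ p →
      E + (1 + Real.log p) ^ 2 ≤ C1 * Real.sqrt p := by
    refine ⟨E + 25, by linarith, fun p hp => ?_⟩
    have hpR : (1 : ℝ) ≤ p := by exact_mod_cast hp
    have hlogp : 0 ≤ Real.log p := Real.log_nonneg hpR
    have hs1 : 1 ≤ Real.sqrt p := by
      rw [Real.one_le_sqrt]; exact hpR
    have h2 : Real.log p ≤ 4 * Real.sqrt (Real.sqrt p) := by
      have h3 : Real.log (Real.sqrt (Real.sqrt p)) ≤ Real.sqrt (Real.sqrt p) := by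
        have := Real.log_le_sub_one_of_pos (show 0 < Real.sqrt (Real.sqrt p) by positivity)
        linarith
      rw [Real.log_sqrt (by positivity), Real.log_sqrt (by positivity)] at h3
      linarith
    have h4 : Real.sqrt (Real.sqrt p) * Real.sqrt (Real.sqrt p) = Real.sqrt p :=
      Real.mul_self_sqrt (by positivity)
    have h5 : 1 ≤ Real.sqrt (Real.sqrt p) := by
      rw [Real.one_le_sqrt]; exact hs1
    have h6 : 1 + Real.log p ≤ 5 * Real.sqrt (Real.sqrt p) := by linarith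
    have h7 : (1 + Real.log p) ^ 2 ≤ 25 * Real.sqrt p := by
      calc (1 + Real.log p) ^ 2 ≤ (5 * Real.sqrt (Real.sqrt p)) ^ 2 := by gcongr
        _ = 25 * (Real.sqrt (Real.sqrt p) * Real.sqrt (Real.sqrt p)) := by ring
        _ = 25 * Real.sqrt p := by rw [h4]
    nlinarith
  refine ⟨1 + Real.log C1 / Real.log (B + 1), fun p D hp h => ?_⟩
  have hpR : (1 : ℝ) ≤ p := by exact_mod_cast hp
  have hp0 : (0 : ℝ) < p := by linarith
  have h2 := h1 p hp
  have hsp : 0 < Real.sqrt p := Real.sqrt_pos.2 hp0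
  have h3 : Real.sqrt p ≤ (B + 1) ^ (D + 1) * C1 := by
    have h4 : (p : ℝ) ≤ (B + 1) ^ (D + 1) * (C1 * Real.sqrt p) := by
      refine h.trans (mul_le_mul (pow_le_pow_left₀ (by linarith) (by linarith) _) h2 ?_ (by positivity))
      positivity
    have h5 : Real.sqrt p * Real.sqrt p = p := Real.mul_self_sqrt hp0.le
    by_contra hcon
    push Not at hcon
    have h6 := mul_lt_mul_of_pos_right hcon hsp
    rw [h5] at h6
    linarith
  have h4 := Real.log_le_log hsp h3
  rw [Real.log_sqrt hp0.le, Real.log_mul (by positivity) (by positivity), Real.log_pow] at h4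
  push_cast at h4
  have h5 : Real.log p / (2 * Real.log (B + 1)) ≤ (D + 1) + Real.log C1 / Real.log (B + 1) := by
    rw [div_le_iff₀ (by positivity)]
    have e : ((D : ℝ) + 1 + Real.log C1 / Real.log (B + 1)) * (2 * Real.log (B + 1)) =
        2 * ((D + 1) * Real.log (B + 1) + Real.log C1) := by
      field_simp
    rw [e]
    linarith
  linarith

end Pool.Agent.Y780.Cz
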