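import Mathlib
import Pool.Agent.Y780.Cz.Pair
import Pool.Agent.W42.Form

set_option autoImplicit false

/-!
# Small elements of the cycles of the 3x+1 map
-/

open Finset

namespace Pool.Agent.Y780.Cz

/-- number of odd iterates among the first `n` -/
def od (x : ℤ) (n : ℕ) : ℕ := ∑ i ∈ range n, if (T 3 1)^[i] x % 2 = 0 then 0 else 1

lemma log_step {m : ℝ} (hm : 1 ≤ m) (x : ℤ) (hx : m ≤ |(x : ℝ)|) :
    |Real.log |(T 3 1 x : ℝ)| - Real.log |(x : ℝ)| + Real.log 2 -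
      ((if x % 2 = 0 then 0 else 1 : ℕ) : ℝ) * Real.log 3| ≤ 1 / (3 * m - 1) := by
  have hx0 : 0 < |(x : ℝ)| := by linarith
  have hm0 : 0 < 3 * m - 1 := by linarith
  by_cases h : x % 2 = 0
  · have h1 : (2 : ℝ) * T 3 1 x = x := by exact_mod_cast two_mul_even (q := 3) (k := 1) x h
    have h2 : |(x : ℝ)| = 2 * |(T 3 1 x : ℝ)| := by rw [← h1, abs_mul]; norm_num
    have h3 : 0 < |(T 3 1 x : ℝ)| := by linarith
    rw [if_pos h, h2, Real.log_mul (by norm_num) h3.ne']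
    simp only [Nat.cast_zero, zero_mul, sub_zero]
    have e : Real.log |(T 3 1 x : ℝ)| - (Real.log 2 + Real.log |(T 3 1 x : ℝ)|) + Real.log 2 = 0 := by ring
    rw [e, abs_zero]
    positivity
  · have h1 : (2 : ℝ) * T 3 1 x = 3 * x + 1 := by
      exact_mod_cast two_mul_odd (q := 3) (k := 1) (by norm_num) (by norm_num) x h
    have h2 : 2 * |(T 3 1 x : ℝ)| = |3 * (x : ℝ) + 1| := by rw [← h1, abs_mul]; norm_num
    have h4 : |3 * (x : ℝ)| = 3 * |(x : ℝ)| := by rw [abs_mul]; norm_num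
    have h5 : |3 * (x : ℝ) + 1| ≤ 3 * |(x : ℝ)| + 1 := by
      have := abs_add_le (3 * (x : ℝ)) 1
      rw [h4, abs_one] at this; exact this
    have h6 : 3 * |(x : ℝ)| ≤ |3 * (x : ℝ) + 1| + 1 := by
      have := abs_sub_abs_le_abs_sub (3 * (x : ℝ)) (-1)
      rw [h4, abs_neg, abs_one, sub_neg_eq_add] at this; linarith
    have h3 : 0 < |(T 3 1 x : ℝ)| := by linarith
    rw [if_neg h]
    simp only [Nat.cast_one, one_mul]
    have e : Real.log |(T 3 1 x : ℝ)| - Real.log |(x : ℝ)| + Real.log 2 - Real.log 3 =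
        Real.log |3 * (x : ℝ) + 1| - Real.log (3 * |(x : ℝ)|) := by
      rw [← h2, Real.log_mul (by norm_num) h3.ne', Real.log_mul (by norm_num) hx0.ne']; ring
    rw [e]
    have ha : 0 < |3 * (x : ℝ) + 1| := by linarith
    have hb : 0 < 3 * |(x : ℝ)| := by linarith
    have key : ∀ a b : ℝ, 0 < a → 3 * m - 1 ≤ b → a ≤ b + 1 → Real.log a - Real.log b ≤ 1 / (3 * m - 1) := by
      intro a b ha hb hab
      have hb0 : 0 < b := by linarith
      rw [← Real.log_div ha.ne' hb0.ne']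
      have h7 := Real.log_le_sub_one_of_pos (div_pos ha hb0)
      have h8 : a / b - 1 ≤ 1 / b := by
        rw [div_sub_one hb0.ne']
        exact div_le_div_of_nonneg_right (by linarith) hb0.le
      have h9 : 1 / b ≤ 1 / (3 * m - 1) := one_div_le_one_div_of_le hm0 hb
      linarith
    rw [abs_le]
    constructor
    · have := key _ _ hb (by linarith) h6
      linarith
    · exact key _ _ ha (by linarith) h5

lemma log_iter {m : ℝ} (hm : 1 ≤ m) (x : ℤ) (n : ℕ) (hx : ∀ i < n, m ≤ |((T 3 1)^[i] x : ℝ)|) :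
    |Real.log |((T 3 1)^[n] x : ℝ)| - Real.log |(x : ℝ)| + n * Real.log 2 - od x n * Real.log 3| ≤
      n / (3 * m - 1) := by
  induction n with
  | zero => simp [od]
  | succ n ih =>
    have h1 := ih (fun i hi => hx i (by omega))
    have h2 := log_step hm ((T 3 1)^[n] x) (hx n (by omega))
    rw [Function.iterate_succ_apply']
    have e : od x (n + 1) = od x n + if (T 3 1)^[n] x % 2 = 0 then 0 else 1 := by
      unfold od; rw [Finset.sum_range_succ]
    rw [e, Nat.cast_add (od x n)]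
    set a : ℝ := ((if (T 3 1)^[n] x % 2 = 0 then 0 else 1 : ℕ) : ℝ) with ha
    set u := Real.log |((T 3 1 ((T 3 1)^[n] x) : ℤ) : ℝ)|
    set v := Real.log |(((T 3 1)^[n] x : ℤ) : ℝ)|
    set w := Real.log |(x : ℝ)|
    have e2 : u - w + (((n : ℕ) : ℝ) + 1) * Real.log 2 - ((od x n : ℝ) + a) * Real.log 3 =
        (v - w + n * Real.log 2 - od x n * Real.log 3) + (u - v + Real.log 2 - a * Real.log 3) := by
      ring
    push_cast
    rw [e2]
    refine (abs_add_le _ _).trans ?_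
    have e3 : ((n : ℝ) + 1) / (3 * m - 1) = n / (3 * m - 1) + 1 / (3 * m - 1) := by
      ring
    rw [e3]
    exact add_le_add h1 h2

/-- the linear form of a cycle -/
lemma form_le {m : ℝ} (hm : 1 ≤ m) (x : ℤ) (p : ℕ) (hper : (T 3 1)^[p] x = x)
    (hx : ∀ i < p, m ≤ |((T 3 1)^[i] x : ℝ)|) :
    |(p : ℝ) * Real.log 2 - od x p * Real.log 3| * (3 * m - 1) ≤ p := by
  have h := log_iter hm x p hx
  rw [hper, sub_self, zero_add] at h
  rwa [le_div_iff₀ (by linarith)] at h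

/-- if the linear form is at least `ε` then some element is small -/
lemma small_of_form {ε : ℝ} (x : ℤ) (p : ℕ) (hper : (T 3 1)^[p] x = x)
    (hform : ε ≤ |(p : ℝ) * Real.log 2 - od x p * Real.log 3|) {B : ℝ} (hB : 1 ≤ B)
    (hpB : p < ε * (3 * B - 1)) : ∃ i, |((T 3 1)^[i] x : ℝ)| ≤ B := by
  by_contra hcon
  push Not at hcon
  have h := form_le hB x p hper (fun i _ => (hcon i).le)
  have : ε * (3 * B - 1) ≤ |(p : ℝ) * Real.log 2 - od x p * Real.log 3| * (3 * B - 1) :=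
    mul_le_mul_of_nonneg_right hform (by linarith)
  linarith

lemma log3_lt : Real.log 3 ≤ 1.585 * Real.log 2 := by
  have h0 : (3 : ℕ) ^ 200 ≤ 2 ^ 317 := by decide +kernel
  have h : (3 : ℝ) ^ 200 ≤ 2 ^ 317 := by exact_mod_cast h0
  have h1 := Real.log_le_log (by positivity) h
  rw [Real.log_pow, Real.log_pow] at h1
  push_cast at h1
  linarith

lemma log3_gt : 1.584 * Real.log 2 ≤ Real.log 3 := by
  have h : (2 : ℝ) ^ 198 ≤ 3 ^ 125 := by norm_num
  have h1 := Real.log_le_log (by positivity) h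
  rw [Real.log_pow, Real.log_pow] at h1
  push_cast at h1
  linarith

/-- small elements in terms of the length, polynomial bound -/
lemma poly_small (x : ℤ) (p r : ℕ) (hp : 1 ≤ p) (hper : (T 3 1)^[p] x = x)
    (hr : 49 * (p : ℝ) ≤ (204800 / 117649) ^ r) : ∃ i, |((T 3 1)^[i] x : ℝ)| ≤ 2 ^ (13 + 40 * r) := by
  by_contra hcon
  push Not at hcon
  have hpR : (1 : ℝ) ≤ p := by exact_mod_cast hp
  have l2 : (0.6931 : ℝ) < Real.log 2 := by have := Real.log_two_gt_d9; linarith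
  have l2' : Real.log 2 < (0.6932 : ℝ) := by have := Real.log_two_lt_d9; linarith
  have l3 := log3_lt
  have l3' := log3_gt
  have hm1 : (1 : ℝ) ≤ 2 ^ (13 + 40 * r) := one_le_pow₀ (by norm_num)
  have hform := form_le hm1 x p hper (fun i _ => (hcon i).le)
  have hp2 : (p : ℝ) ≤ 2 ^ r := by
    have : ((204800 : ℝ) / 117649) ^ r ≤ 2 ^ r := pow_le_pow_left₀ (by norm_num) (by norm_num) r
    linarith
  set Λ := |(p : ℝ) * Real.log 2 - od x p * Real.log 3| with hΛ
  have hΛ0 : 0 ≤ Λ := abs_nonneg _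
  have e40 : (2 : ℝ) ^ (13 + 40 * r) = 2 ^ 13 * 2 ^ (39 * r) * 2 ^ r := by
    rw [← pow_add, ← pow_add]; congr 1; ring
  have h39 : (1 : ℝ) ≤ 2 ^ (39 * r) := one_le_pow₀ (by norm_num)
  have hr0 : (1 : ℝ) ≤ 2 ^ r := one_le_pow₀ (by norm_num)
  rcases le_or_gt 0.01 Λ with hbig | hsmall
  · have h1 : (0.01 : ℝ) * (3 * 2 ^ (13 + 40 * r) - 1) ≤ Λ * (3 * 2 ^ (13 + 40 * r) - 1) :=
      mul_le_mul_of_nonneg_right hbig (by linarith)
    have h2 : (2 : ℝ) ^ 13 * 2 ^ r ≤ 2 ^ (13 + 40 * r) := by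
      rw [e40]
      have : (2 : ℝ) ^ 13 * 1 * 2 ^ r ≤ 2 ^ 13 * 2 ^ (39 * r) * 2 ^ r := by gcongr
      linarith
    norm_num at h2
    linarith
  · have hsm := hsmall
    rw [hΛ] at hsm
    obtain ⟨hs1, hs2⟩ := abs_lt.1 hsm
    have hp2o : (p : ℤ) < 2 * (od x p : ℤ) := by
      by_contra hc
      push Not at hc
      have hc' : (2 : ℝ) * od x p ≤ p := by exact_mod_cast hc
      nlinarith
    have h3o : 3 * (od x p : ℤ) < 2 * (p : ℤ) := by
      by_contra hc
      push Not at hc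
      have hc' : (2 : ℝ) * p ≤ 3 * od x p := by exact_mod_cast hc
      nlinarith
    have hlow := Pool.Agent.W42.Form.lower r (p : ℤ) (od x p : ℤ) hp2o h3o (by
      push_cast
      have : (0 : ℝ) ≤ od x p := Nat.cast_nonneg _
      linarith)
    push_cast at hlow
    rw [← hΛ] at hlow
    have h1 : 2 * (2 : ℝ) ^ (13 + 40 * r) ≤ 3 * 2 ^ (13 + 40 * r) - 1 := by linarith
    have h2 : Λ * (2 * (2 : ℝ) ^ (13 + 40 * r)) ≤ p :=
      le_trans (mul_le_mul_of_nonneg_left h1 hΛ0) hform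
    rw [e40] at h2
    have h3 : 2 * (2 : ℝ) ^ r ≤ p := by
      calc 2 * (2 : ℝ) ^ r = 1 * (2 * 2 ^ r) := by ring
        _ ≤ (2 ^ 13 * 2 ^ (39 * r) * Λ) * (2 * 2 ^ r) := mul_le_mul_of_nonneg_right hlow (by positivity)
        _ = Λ * (2 * (2 ^ 13 * 2 ^ (39 * r) * 2 ^ r)) := by ring
        _ ≤ p := h2
    linarith

end Pool.Agent.Y780.Cz
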