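import Mathlib
import Pool.Agent.W42.Small

set_option autoImplicit false

/-!
Verification: the integers `x` with `0 < |x| < 2 ^ 18` which have the least absolute value in their
forward orbit are `1, -1, -5, -17`.
-/

namespace Pool.Agent.Y780.Cz

open Pool.Agent.W42.Small

/-- the test for `4 a + 3` (positive integers) -/
def gp (a : ℕ) : Bool := below sp (4 * a + 3) 200 (sp (4 * a + 3))

/-- the test for `-(4 a + 1)` -/
def gn (a : ℕ) : Bool := below sn (4 * a + 1) 200 (sn (4 * a + 1)) || [0, 1, 4].contains a

/-- all values of `g` on `[s, s + 2 ^ d)`, by bisection -/
def tree (g : ℕ → Bool) : ℕ → ℕ → Bool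
  | 0, s => g s
  | d + 1, s => tree g d s && tree g d (s + 2 ^ d)

theorem tree_spec (g : ℕ → Bool) (d : ℕ) :
    ∀ s, tree g d s = true → ∀ n, s ≤ n → n < s + 2 ^ d → g n = true := by
  induction d with
  | zero =>
    intro s h n h1 h2
    have : n = s := by omega
    rw [this]; exact h
  | succ d ih =>
    intro s h n h1 h2
    rw [tree, Bool.and_eq_true] at h
    rcases Nat.lt_or_ge n (s + 2 ^ d) with h3 | h3
    · exact ih s h.1 n h1 h3
    · exact ih (s + 2 ^ d) h.2 n h3 (by rw [pow_succ] at h2; omega)

theorem vp0 : tree gp 11 0 = true := by decide +kernel
theorem vp1 : tree gp 11 2048 = true := by decide +kernel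
theorem vp2 : tree gp 11 4096 = true := by decide +kernel
theorem vp3 : tree gp 11 6144 = true := by decide +kernel
theorem vp4 : tree gp 11 8192 = true := by decide +kernel
theorem vp5 : tree gp 11 10240 = true := by decide +kernel
theorem vp6 : tree gp 11 12288 = true := by decide +kernel
theorem vp7 : tree gp 11 14336 = true := by decide +kernel
theorem vp8 : tree gp 11 16384 = true := by decide +kernel
theorem vp9 : tree gp 11 18432 = true := by decide +kernel
theorem vp10 : tree gp 11 20480 = true := by decide +kernel
theorem vp11 : tree gp 11 22528 = true := by decide +kernel
theorem vp12 : tree gp 11 24576 = true := by decide +kernel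
theorem vp13 : tree gp 11 26624 = true := by decide +kernel
theorem vp14 : tree gp 11 28672 = true := by decide +kernel
theorem vp15 : tree gp 11 30720 = true := by decide +kernel
theorem vp16 : tree gp 11 32768 = true := by decide +kernel
theorem vp17 : tree gp 11 34816 = true := by decide +kernel
theorem vp18 : tree gp 11 36864 = true := by decide +kernel
theorem vp19 : tree gp 11 38912 = true := by decide +kernel
theorem vp20 : tree gp 11 40960 = true := by decide +kernel
theorem vp21 : tree gp 11 43008 = true := by decide +kernel
theorem vp22 : tree gp 11 45056 = true := by decide +kernel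
theorem vp23 : tree gp 11 47104 = true := by decide +kernel
theorem vp24 : tree gp 11 49152 = true := by decide +kernel
theorem vp25 : tree gp 11 51200 = true := by decide +kernel
theorem vp26 : tree gp 11 53248 = true := by decide +kernel
theorem vp27 : tree gp 11 55296 = true := by decide +kernel
theorem vp28 : tree gp 11 57344 = true := by decide +kernel
theorem vp29 : tree gp 11 59392 = true := by decide +kernel
theorem vp30 : tree gp 11 61440 = true := by decide +kernel
theorem vp31 : tree gp 11 63488 = true := by decide +kernel
theorem vn0 : tree gn 11 0 = true := by decide +kernel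
theorem vn1 : tree gn 11 2048 = true := by decide +kernel
theorem vn2 : tree gn 11 4096 = true := by decide +kernel
theorem vn3 : tree gn 11 6144 = true := by decide +kernel
theorem vn4 : tree gn 11 8192 = true := by decide +kernel
theorem vn5 : tree gn 11 10240 = true := by decide +kernel
theorem vn6 : tree gn 11 12288 = true := by decide +kernel
theorem vn7 : tree gn 11 14336 = true := by decide +kernel
theorem vn8 : tree gn 11 16384 = true := by decide +kernel
theorem vn9 : tree gn 11 18432 = true := by decide +kernel
theorem vn10 : tree gn 11 20480 = true := by decide +kernel
theorem vn11 : tree gn 11 22528 = true := by decide +kernel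
theorem vn12 : tree gn 11 24576 = true := by decide +kernel
theorem vn13 : tree gn 11 26624 = true := by decide +kernel
theorem vn14 : tree gn 11 28672 = true := by decide +kernel
theorem vn15 : tree gn 11 30720 = true := by decide +kernel
theorem vn16 : tree gn 11 32768 = true := by decide +kernel
theorem vn17 : tree gn 11 34816 = true := by decide +kernel
theorem vn18 : tree gn 11 36864 = true := by decide +kernel
theorem vn19 : tree gn 11 38912 = true := by decide +kernel
theorem vn20 : tree gn 11 40960 = true := by decide +kernel
theorem vn21 : tree gn 11 43008 = true := by decide +kernel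
theorem vn22 : tree gn 11 45056 = true := by decide +kernel
theorem vn23 : tree gn 11 47104 = true := by decide +kernel
theorem vn24 : tree gn 11 49152 = true := by decide +kernel
theorem vn25 : tree gn 11 51200 = true := by decide +kernel
theorem vn26 : tree gn 11 53248 = true := by decide +kernel
theorem vn27 : tree gn 11 55296 = true := by decide +kernel
theorem vn28 : tree gn 11 57344 = true := by decide +kernel
theorem vn29 : tree gn 11 59392 = true := by decide +kernel
theorem vn30 : tree gn 11 61440 = true := by decide +kernel
theorem vn31 : tree gn 11 63488 = true := by decide +kernel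

theorem all_gp (a : ℕ) (h : a < 65536) : gp a = true := by
  have key : ∀ i < 32, tree gp 11 (2048 * i) = true := by
    intro i hi
    interval_cases i
    · exact vp0
    · exact vp1
    · exact vp2
    · exact vp3
    · exact vp4
    · exact vp5
    · exact vp6
    · exact vp7
    · exact vp8
    · exact vp9
    · exact vp10
    · exact vp11
    · exact vp12
    · exact vp13
    · exact vp14
    · exact vp15
    · exact vp16
    · exact vp17
    · exact vp18
    · exact vp19
    · exact vp20
    · exact vp21
    · exact vp22
    · exact vp23
    · exact vp24
    · exact vp25
    · exact vp26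
    · exact vp27
    · exact vp28
    · exact vp29
    · exact vp30
    · exact vp31
  exact tree_spec gp 11 (2048 * (a / 2048)) (key _ (by omega)) a (by omega) (by norm_num; omega)


theorem all_gn (a : ℕ) (h : a < 65536) : gn a = true := by
  have key : ∀ i < 32, tree gn 11 (2048 * i) = true := by
    intro i hi
    interval_cases i
    · exact vn0
    · exact vn1
    · exact vn2
    · exact vn3
    · exact vn4
    · exact vn5
    · exact vn6
    · exact vn7
    · exact vn8
    · exact vn9
    · exact vn10
    · exact vn11
    · exact vn12
    · exact vn13
    · exact vn14
    · exact vn15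
    · exact vn16
    · exact vn17
    · exact vn18
    · exact vn19
    · exact vn20
    · exact vn21
    · exact vn22
    · exact vn23
    · exact vn24
    · exact vn25
    · exact vn26
    · exact vn27
    · exact vn28
    · exact vn29
    · exact vn30
    · exact vn31
  exact tree_spec gn 11 (2048 * (a / 2048)) (key _ (by omega)) a (by omega) (by norm_num; omega)


end Pool.Agent.Y780.Cz
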