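import Mathlib
import Pool.Agent.Y780.Cz.One
import Pool.Agent.Y780.Cz.Ver

set_option autoImplicit false

/-!
# Periodic points of the 3x+1 map with nearby parity words
-/

open Finset

namespace Pool.Agent.Y780.Cz

/-- the elements of the five known cycles -/
def Known : Finset ℤ := {1, 2, 0, -1, -5, -7, -10, -17, -25, -37, -55, -82, -41, -61, -91, -136, -68, -34}

theorem known_closed : ∀ x ∈ Known, T 3 1 x ∈ Known := by decide

theorem known_iter (n : ℕ) : ∀ x : ℤ, x ∈ Known → (T 3 1)^[n] x ∈ Known := by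
  induction n with
  | zero => intro x hx; exact hx
  | succ n ih => intro x hx; rw [Function.iterate_succ_apply]; exact ih _ (known_closed x hx)

lemma T_eq : Pool.Agent.H319R2.T = T 3 1 := by
  funext x; rfl

/-- the least elements of cycles of absolute value below `2 ^ 18` -/
theorem least {x : ℤ} (h0 : x ≠ 0) (hx : |x| < 262144) (hmin : ∀ j, |x| ≤ |(T 3 1)^[j] x|) :
    x = 1 ∨ x = -1 ∨ x = -5 ∨ x = -17 := by
  have hmod : x % 2 = 1 := by
    by_contra hcon
    have h1 := hmin 1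
    have h2 := two_mul_even (q := 3) (k := 1) x (by omega)
    rw [Function.iterate_one] at h1
    have h3 : |x| = 2 * |T 3 1 x| := by
      conv_lhs => rw [← h2]
      rw [abs_mul]; norm_num
    have h4 : 0 < |x| := abs_pos.2 h0
    omega
  rcases lt_or_gt_of_ne h0 with h | h
  · obtain ⟨n, hn⟩ : ∃ n : ℕ, x = -(n : ℤ) := ⟨x.natAbs, by omega⟩
    rw [abs_of_neg h] at hx
    rcases (show n % 4 = 1 ∨ n % 4 = 3 by omega) with h4 | h4
    · obtain ⟨a, ha⟩ : ∃ a, n = 4 * a + 1 := ⟨n / 4, by omega⟩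
      have h2 := all_gn a (by omega)
      rw [gn, Bool.or_eq_true, ← ha] at h2
      rcases h2 with h2 | h2
      · obtain ⟨j, hj⟩ := Pool.Agent.W42.Small.below_spec _ _ _ _ h2
        have h3 := hmin (j + 1)
        rw [hn, ← T_eq, Pool.Agent.W42.Small.sn_iter, Function.iterate_succ_apply, abs_neg, abs_neg] at h3
        simp only [Nat.abs_cast] at h3
        omega
      · simp at h2
        omega
    · exfalso
      have h2 := two_mul_odd (q := 3) (k := 1) (by norm_num) (by norm_num) x (by omega)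
      have h3 := two_mul_even (q := 3) (k := 1) (T 3 1 x) (by omega)
      have h5 := hmin 2
      have h6 : (T 3 1)^[2] x = T 3 1 (T 3 1 x) := rfl
      rw [h6, abs_of_neg h] at h5
      rcases abs_cases (T 3 1 (T 3 1 x)) with ⟨h7, _⟩ | ⟨h7, _⟩ <;> omega
  · obtain ⟨n, hn⟩ : ∃ n : ℕ, x = (n : ℤ) := ⟨x.natAbs, by omega⟩
    rw [abs_of_pos h] at hx
    rcases (show n % 4 = 1 ∨ n % 4 = 3 by omega) with h4 | h4
    · have h2 := two_mul_odd (q := 3) (k := 1) (by norm_num) (by norm_num) x (by omega)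
      have h3 := two_mul_even (q := 3) (k := 1) (T 3 1 x) (by omega)
      have h5 := hmin 2
      have h6 : (T 3 1)^[2] x = T 3 1 (T 3 1 x) := rfl
      rw [h6, abs_of_pos h] at h5
      left
      rcases abs_cases (T 3 1 (T 3 1 x)) with ⟨h7, _⟩ | ⟨h7, _⟩ <;> omega
    · obtain ⟨a, ha⟩ : ∃ a, n = 4 * a + 3 := ⟨n / 4, by omega⟩
      have h2 := all_gp a (by omega)
      rw [gp, ← ha] at h2
      obtain ⟨j, hj⟩ := Pool.Agent.W42.Small.below_spec _ _ _ _ h2
      have h3 := hmin (j + 1)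
      rw [hn, ← T_eq, Pool.Agent.W42.Small.sp_iter, Function.iterate_succ_apply] at h3
      simp only [Nat.abs_cast] at h3
      omega

/-- all elements of an unknown cycle have absolute value at least `2 ^ 18` -/
theorem unknown_large {x : ℤ} {p : ℕ} (hp : 1 ≤ p) (hx : (T 3 1)^[p] x = x) (hun : x ∉ Known) (i : ℕ) :
    262144 ≤ |(T 3 1)^[i] x| := by
  -- a minimiser
  obtain ⟨i0, hi0⟩ : ∃ i : ℕ, ∀ j : ℕ, ((T 3 1)^[i] x).natAbs ≤ ((T 3 1)^[j] x).natAbs := by
    classical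
    have hne : ∃ n : ℕ, ∃ i : ℕ, ((T 3 1)^[i] x).natAbs = n := ⟨_, 0, rfl⟩
    obtain ⟨i, hi⟩ := Nat.find_spec hne
    refine ⟨i, fun j => ?_⟩
    rw [hi]
    exact Nat.find_min' hne ⟨j, rfl⟩
  have hunk : ∀ i, (T 3 1)^[i] x ∉ Known := by
    intro i hi
    apply hun
    have h1 : (T 3 1)^[p * i] x = x := iter_mul hx i
    obtain ⟨c, hc⟩ : ∃ c, p * i = c + i := ⟨p * i - i, by
      have : i ≤ p * i := Nat.le_mul_of_pos_left i hp
      omega⟩
    rw [hc, Function.iterate_add_apply] at h1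
    rw [← h1]
    exact known_iter c _ hi
  by_contra hcon
  push Not at hcon
  have h1 : |(T 3 1)^[i0] x| ≤ |(T 3 1)^[i] x| := by
    rw [Int.abs_eq_natAbs, Int.abs_eq_natAbs]
    exact_mod_cast hi0 i
  have h2 : |(T 3 1)^[i0] x| < 262144 := lt_of_le_of_lt h1 hcon
  have h3 : (T 3 1)^[i0] x ≠ 0 := by
    intro h
    apply hunk i0
    rw [h]; decide
  have h4 := least h3 h2 (by
    intro j
    rw [← Function.iterate_add_apply, Int.abs_eq_natAbs, Int.abs_eq_natAbs]
    exact_mod_cast hi0 (j + i0))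
  apply hunk i0
  rcases h4 with h4 | h4 | h4 | h4 <;> rw [h4] <;> decide

lemma delta_le : Real.logb 2 (3 : ℝ) ≤ 1.585 := by
  unfold Real.logb
  rw [div_le_iff₀ (Real.log_pos (by norm_num))]
  exact log3_lt

lemma delta_nonneg : 0 ≤ Real.logb 2 (3 : ℝ) := Real.logb_nonneg (by norm_num) (by norm_num)

lemma sum5 {D : ℕ} (hD : D ≤ 5) : ∑ j ∈ range (D + 1), Real.logb 2 (3 : ℝ) ^ j ≤ 25.394 := by
  have h0 := delta_nonneg
  have h1 : ∑ j ∈ range (D + 1), Real.logb 2 (3 : ℝ) ^ j ≤ ∑ j ∈ range 6, Real.logb 2 (3 : ℝ) ^ j := by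
    apply Finset.sum_le_sum_of_subset_of_nonneg
    · intro i hi
      rw [Finset.mem_range] at *
      omega
    · intro i _ _; positivity
  have h2 : ∑ j ∈ range 6, Real.logb 2 (3 : ℝ) ^ j ≤ ∑ j ∈ range 6, (1.585 : ℝ) ^ j := by
    apply Finset.sum_le_sum
    intro j _
    exact pow_le_pow_left₀ h0 delta_le j
  have h3 : ∑ j ∈ range 6, (1.585 : ℝ) ^ j ≤ 25.394 := by
    simp only [Finset.sum_range_succ, Finset.sum_range_zero]
    norm_num
  linarith

/-- the bound for pairs if the least elements are at most `2 ^ e` -/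
lemma pair5 {x y : ℤ} {p e : ℕ} (hp : 1 ≤ p) (hxy : x ≠ y) (hx : (T 3 1)^[p] x = x)
    (hy : (T 3 1)^[p] y = y) (hD : dis 3 1 x y p ≤ 5) (he : (p : ℝ) ≤ 2 ^ e)
    (hi : ∃ i, |((T 3 1)^[i] x : ℝ)| ≤ 2 ^ e) (hj : ∃ j, |((T 3 1)^[j] y : ℝ)| ≤ 2 ^ e) :
    (p : ℝ) ≤ (11.925 + e) * 25.394 := by
  have h1 := pair_bound (q := 3) (k := 1) (by norm_num) (by norm_num) (by norm_num) hp (L := 2 ^ e)
    (by simpa using he) hxy hx hy hi hj
  have h2 : Real.logb 2 ((2 : ℝ) ^ e) = e := by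
    rw [Real.logb_pow, Real.logb_self_eq_one (by norm_num), mul_one]
  rw [h2] at h1
  push_cast at h1
  have h3 := delta_le
  have h0 := delta_nonneg
  have h4 := sum5 hD
  have h5 : ((dis 3 1 x y p : ℕ) : ℝ) ≤ 5 := by exact_mod_cast hD
  have h6 : ((dis 3 1 x y p : ℕ) : ℝ) * Real.logb 2 3 ≤ 5 * 1.585 :=
    mul_le_mul h5 h3 h0 (by norm_num)
  refine h1.trans ?_
  have h7 : 0 ≤ ∑ j ∈ range (dis 3 1 x y p + 1), Real.logb 2 (3 : ℝ) ^ j :=
    Finset.sum_nonneg fun j _ => by positivity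
  apply mul_le_mul _ h4 h7 (by positivity)
  linarith

lemma pair5_form {x y : ℤ} {p e : ℕ} {ε : ℝ} (hp : 1 ≤ p) (hxy : x ≠ y) (hx : (T 3 1)^[p] x = x)
    (hy : (T 3 1)^[p] y = y) (hD : dis 3 1 x y p ≤ 5) (he : (p : ℝ) ≤ 2 ^ e)
    (hform : ∀ o : ℤ, ε ≤ |(p : ℝ) * Real.log 2 - o * Real.log 3|) (hpe : p < ε * (3 * 2 ^ e - 1)) :
    (p : ℝ) ≤ (11.925 + e) * 25.394 := by
  have h1 : (1 : ℝ) ≤ 2 ^ e := one_le_pow₀ (by norm_num)
  refine pair5 hp hxy hx hy hD he ?_ ?_
  · have := hform (od x p)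
    push_cast at this
    exact small_of_form x p hx this h1 hpe
  · have := hform (od y p)
    push_cast at this
    exact small_of_form y p hy this h1 hpe

/-- **Classification**, one element. -/
theorem unknown_false {x y : ℤ} {p : ℕ} (hp : 1 ≤ p) (hxy : x ≠ y) (hx : (T 3 1)^[p] x = x)
    (hy : (T 3 1)^[p] y = y) (hD : dis 3 1 x y p ≤ 5) : x ∈ Known := by
  by_contra hun
  have hlarge := unknown_large hp hx hun
  have hpR : (1 : ℝ) ≤ p := by exact_mod_cast hp
  rcases Nat.lt_or_ge p 1054 with h1 | h1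
  · have hcf : ∀ o : ℤ, (0.00102 : ℝ) ≤ |(p : ℝ) * Real.log 2 - o * Real.log 3| := by
      intro o
      have := Pool.Agent.W42.Form.cf1 (p : ℤ) o (by omega) (by omega)
      push_cast at this
      exact this
    have hpb : (p : ℝ) < 1054 := by exact_mod_cast h1
    have h2 := form_le (m := 262144) (by norm_num) x p hx (fun i _ => by exact_mod_cast hlarge i)
    have h3 := hcf (od x p)
    push_cast at h3
    have h4 := pair5_form (e := 19) (ε := 0.00102) hp hxy hx hy hD (by norm_num; linarith) hcf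
      (by norm_num; linarith)
    norm_num at h4
    nlinarith
  rcases Nat.lt_or_ge p 50508 with h2 | h2
  · have hcf : ∀ o : ℤ, (0.000018 : ℝ) ≤ |(p : ℝ) * Real.log 2 - o * Real.log 3| := by
      intro o
      have := Pool.Agent.W42.Form.cf2 (p : ℤ) o (by omega) (by omega)
      push_cast at this
      exact this
    have hpb : (1054 : ℝ) ≤ p := by exact_mod_cast h1
    have hpc : (p : ℝ) < 50508 := by exact_mod_cast h2
    rcases lt_or_ge (p : ℝ) 1100 with h3 | h3
    · have h4 := pair5_form (e := 25) (ε := 0.000018) hp hxy hx hy hD (by norm_num; linarith) hcf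
        (by norm_num; linarith)
      norm_num at h4
      linarith
    · have h4 := pair5_form (e := 30) (ε := 0.000018) hp hxy hx hy hD (by norm_num; linarith) hcf
        (by norm_num; linarith)
      norm_num at h4
      linarith
  · -- large periods
    have hpb : (50508 : ℝ) ≤ p := by exact_mod_cast h2
    set c : ℝ := 204800 / 117649 with hc
    have hc1 : 1 < c := by rw [hc]; norm_num
    have hex : ∃ r : ℕ, 49 * (p : ℝ) ≤ c ^ r := by
      obtain ⟨r, hr⟩ := pow_unbounded_of_one_lt (49 * (p : ℝ)) hc1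
      exact ⟨r, hr.le⟩
    classical
    set r := Nat.find hex with hr
    have hspec : 49 * (p : ℝ) ≤ c ^ r := Nat.find_spec hex
    have hp2 : (p : ℝ) ≤ 2 ^ (13 + 40 * r) := by
      have h3 : c ^ r ≤ 2 ^ r := pow_le_pow_left₀ (by linarith) (by rw [hc]; norm_num) r
      have h4 : (2 : ℝ) ^ r ≤ 2 ^ (13 + 40 * r) := pow_le_pow_right₀ (by norm_num) (by omega)
      linarith
    have h3 := pair5 (e := 13 + 40 * r) hp hxy hx hy hD hp2 (poly_small x p r hp hx hspec)
      (poly_small y p r hp hy hspec)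
    push_cast at h3
    rcases Nat.lt_or_ge r 28 with h4 | h4
    · have h5 : (r : ℝ) ≤ 27 := by exact_mod_cast (by omega : r ≤ 27)
      nlinarith
    · obtain ⟨j, hj⟩ : ∃ j, r = 28 + j := ⟨r - 28, by omega⟩
      have h5 : c ^ (27 + j) < 49 * (p : ℝ) := by
        have := Nat.find_min hex (show 27 + j < Nat.find hex by omega)
        exact not_le.1 this
      have hb : (1 : ℝ) + 0.74 * j ≤ c ^ j := by
        have h := one_add_mul_le_pow (a := (0.74 : ℝ)) (by norm_num) j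
        refine le_trans (le_of_eq (by ring)) (h.trans ?_)
        apply pow_le_pow_left₀ (by norm_num)
        rw [hc]; norm_num
      have hb2 : (3000000 : ℝ) ≤ c ^ 27 := by rw [hc]; norm_num
      have h6 : (3000000 : ℝ) * (1 + 0.74 * j) ≤ c ^ (27 + j) := by
        rw [pow_add]
        exact mul_le_mul hb2 hb (by positivity) (by positivity)
      have h7 : (r : ℝ) = 28 + j := by rw [hj]; push_cast; ring
      have hj0 : (0 : ℝ) ≤ j := Nat.cast_nonneg _
      rw [h7] at h3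
      linarith

lemma dis_comm (q k x y : ℤ) (n : ℕ) : dis q k x y n = dis q k y x n := by
  unfold dis
  apply Finset.sum_congr rfl
  intro i _
  by_cases h : (T q k)^[i] x % 2 = (T q k)^[i] y % 2
  · rw [if_pos h, if_pos h.symm]
  · rw [if_neg h, if_neg (fun h' => h h'.symm)]

/-- **Classification.** -/
theorem classify {x y : ℤ} {p : ℕ} (hp : 1 ≤ p) (hxy : x ≠ y) (hx : (T 3 1)^[p] x = x)
    (hy : (T 3 1)^[p] y = y) (hD : dis 3 1 x y p ≤ 5) : x ∈ Known ∧ y ∈ Known :=
  ⟨unknown_false hp hxy hx hy hD, unknown_false hp hxy.symm hy hx (by rwa [dis_comm])⟩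

lemma geom_le {δ : ℝ} (hδ : 1 < δ) (D : ℕ) : ∑ j ∈ range (D + 1), δ ^ j ≤ δ / (δ - 1) * δ ^ D := by
  rw [geom_sum_eq hδ.ne']
  have h1 : 0 < δ - 1 := by linarith
  rw [div_mul_eq_mul_div, div_le_div_iff_of_pos_right h1, pow_succ]
  nlinarith

/-- **The asymptotic bound for the 3x+1 map.** -/
theorem asym : ∃ A : ℝ, ∀ (x y : ℤ) (p : ℕ), 1 ≤ p → x ≠ y → (T 3 1)^[p] x = x → (T 3 1)^[p] y = y →
    (p : ℝ) ≤ A * (1 + dis 3 1 x y p + Real.log p) * (Real.log 3 / Real.log 2) ^ dis 3 1 x y p := by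
  set c : ℝ := 204800 / 117649 with hc
  have hc1 : 1 < c := by rw [hc]; norm_num
  have hlc : 0 < Real.log c := Real.log_pos hc1
  set δ : ℝ := Real.logb 2 3 with hδ
  have hδ1 : 1 < δ := by
    rw [hδ, Real.lt_logb_iff_rpow_lt (by norm_num) (by norm_num), Real.rpow_one]; norm_num
  have hδe : Real.log 3 / Real.log 2 = δ := rfl
  set A0 : ℝ := 57 + 40 * Real.log 49 / Real.log c + 40 / Real.log c + δ with hA0
  refine ⟨A0 * (δ / (δ - 1)), fun x y p hp hxy hx hy => ?_⟩
  rw [hδe]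
  set D := dis 3 1 x y p with hD
  have hpR : (1 : ℝ) ≤ p := by exact_mod_cast hp
  have hlogp : 0 ≤ Real.log p := Real.log_nonneg hpR
  have hl49 : 0 ≤ Real.log 49 := Real.log_nonneg (by norm_num)
  have hex : ∃ r : ℕ, 49 * (p : ℝ) ≤ c ^ r := by
    obtain ⟨r, hr⟩ := pow_unbounded_of_one_lt (49 * (p : ℝ)) hc1
    exact ⟨r, hr.le⟩
  classical
  set r := Nat.find hex with hr
  have hspec : 49 * (p : ℝ) ≤ c ^ r := Nat.find_spec hex
  have hr1 : 1 ≤ r := by
    by_contra hcon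
    have : r = 0 := by omega
    rw [this, pow_zero] at hspec
    linarith
  have hrle : (r : ℝ) ≤ 1 + (Real.log 49 + Real.log p) / Real.log c := by
    have h1 : c ^ (r - 1) < 49 * (p : ℝ) := not_le.1 (Nat.find_min hex (show r - 1 < Nat.find hex by omega))
    have h2 := Real.log_le_log (by positivity) h1.le
    rw [Real.log_pow, Real.log_mul (by norm_num) (by positivity), Nat.cast_sub hr1, Nat.cast_one] at h2
    have h3 : (r : ℝ) - 1 ≤ (Real.log 49 + Real.log p) / Real.log c := by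
      rw [le_div_iff₀ hlc]; exact h2
    linarith
  have hp2 : (p : ℝ) ≤ 2 ^ (13 + 40 * r) := by
    have h3 : c ^ r ≤ 2 ^ r := pow_le_pow_left₀ (by linarith) (by rw [hc]; norm_num) r
    have h4 : (2 : ℝ) ^ r ≤ 2 ^ (13 + 40 * r) := pow_le_pow_right₀ (by norm_num) (by omega)
    linarith
  have h1 := pair_bound (q := 3) (k := 1) (by norm_num) (by norm_num) (by norm_num) hp
    (L := 2 ^ (13 + 40 * r)) (by simpa using hp2) hxy hx hy (poly_small x p r hp hx hspec)
    (poly_small y p r hp hy hspec)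
  rw [Real.logb_pow, Real.logb_self_eq_one (by norm_num), mul_one] at h1
  push_cast at h1
  rw [← hδ, ← hD] at h1
  have h2 := geom_le hδ1 D
  have hD0 : (0 : ℝ) ≤ D := Nat.cast_nonneg _
  have h3 : 4 + (D : ℝ) * δ + (13 + 40 * r) ≤ A0 * (1 + D + Real.log p) := by
    have e1 : 40 * (r : ℝ) ≤ 40 + 40 * Real.log 49 / Real.log c + 40 / Real.log c * Real.log p := by
      have : 40 * ((Real.log 49 + Real.log p) / Real.log c) =
        40 * Real.log 49 / Real.log c + 40 / Real.log c * Real.log p := by field_simp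
      linarith
    have e2 : 0 ≤ 40 * Real.log 49 / Real.log c := by positivity
    have e3 : 0 ≤ 40 / Real.log c := by positivity
    rw [hA0]
    nlinarith [mul_nonneg e2 hD0, mul_nonneg e2 hlogp, mul_nonneg e3 hD0, mul_nonneg hD0 (by linarith : 0 ≤ δ),
      mul_nonneg hlogp (by linarith : 0 ≤ δ)]
  have h4 : 0 ≤ 4 + (D : ℝ) * δ + (13 + 40 * r) := by positivity
  have h5 : 0 ≤ δ / (δ - 1) * δ ^ D := by
    have : 0 < δ - 1 := by linarith
    positivity
  calc (p : ℝ) ≤ (4 + (D : ℝ) * δ + (13 + 40 * r)) * ∑ j ∈ range (D + 1), δ ^ j := h1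
    _ ≤ (4 + (D : ℝ) * δ + (13 + 40 * r)) * (δ / (δ - 1) * δ ^ D) := mul_le_mul_of_nonneg_left h2 h4
    _ ≤ (A0 * (1 + D + Real.log p)) * (δ / (δ - 1) * δ ^ D) := mul_le_mul_of_nonneg_right h3 h5
    _ = A0 * (δ / (δ - 1)) * (1 + D + Real.log p) * δ ^ D := by ring

end Pool.Agent.Y780.Cz
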