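import Mathlib
import Pool.Agent.Y780.Cz.Low3

set_option autoImplicit false

/-!
# Pairs of trajectories that do not meet, and the rate of growth
-/

open Finset

namespace Pool.Agent.Y780.Cz

/-- **Pairs of trajectories that do not meet.** If the trajectories grow like `2 ^ (ρ a)`, then the
number of disagreements is at least `log N / log (1 + ρ) - C`. -/
lemma pair_growth {q k : ℤ} (hq : q % 2 = 1) (hk : k % 2 = 1) {x y : ℤ} {ρ c0 : ℝ} (hρ : 0 < ρ)
    (hc0 : 0 ≤ c0)
    (hH : ∀ a : ℕ, Real.logb 2 (mx k ((T q k)^[a] x) ((T q k)^[a] y)) ≤ c0 + ρ * a)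
    (hne : ∀ a : ℕ, (T q k)^[a] x ≠ (T q k)^[a] y) (D : ℕ) :
    ∀ N : ℕ, dis q k x y N ≤ D → (N : ℝ) ≤ (2 + c0 + ρ) / ρ * ((1 + ρ) ^ (D + 1) - 1) := by
  classical
  set E : ℝ := 2 + c0 + ρ with hE
  have hE0 : 0 < E := by rw [hE]; linarith
  -- the final run of agreements
  have split : ∀ N : ℕ, ∃ a ≤ N, (∀ i, a ≤ i → i < N →
      (T q k)^[i] x % 2 = (T q k)^[i] y % 2) ∧
      (a = 0 ∨ ∃ b, a = b + 1 ∧ dis q k x y N = dis q k x y b + 1) := by
    intro N
    have hex : ∃ a, ∀ i, a ≤ i → i < N → (T q k)^[i] x % 2 = (T q k)^[i] y % 2 :=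
      ⟨N, fun i h1 h2 => absurd h1 (by omega)⟩
    have hspec := Nat.find_spec hex
    have hmin : ∀ b, b < Nat.find hex → ¬ ∀ i, b ≤ i → i < N →
        (T q k)^[i] x % 2 = (T q k)^[i] y % 2 := fun b hb => Nat.find_min hex hb
    set a := Nat.find hex with ha
    have haN : a ≤ N := by
      by_contra hcon
      exact hmin N (by omega) (fun i h1 h2 => absurd h1 (by omega))
    refine ⟨a, haN, hspec, ?_⟩
    rcases Nat.eq_zero_or_pos a with h0 | h0
    · exact Or.inl h0
    · right
      obtain ⟨b, hb⟩ : ∃ b, a = b + 1 := ⟨a - 1, by omega⟩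
      refine ⟨b, hb, ?_⟩
      have h1 := hmin b (by omega)
      push Not at h1
      obtain ⟨i, h2, h3, h4⟩ := h1
      have h5 : i = b := by
        by_contra h6
        exact h4 (hspec i (by omega) h3)
      rw [h5] at h4
      obtain ⟨g, hg⟩ : ∃ g, N = b + (1 + g) := ⟨N - a, by omega⟩
      rw [hg, dis_add, dis_add]
      have h6 : dis q k ((T q k)^[1] ((T q k)^[b] x)) ((T q k)^[1] ((T q k)^[b] y)) g = 0 := by
        apply dis_eq_zero
        intro i hi
        rw [← Function.iterate_add_apply, ← Function.iterate_add_apply, ← Function.iterate_add_apply,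
          ← Function.iterate_add_apply]
        exact hspec (i + 1 + b) (by omega) (by omega)
      have h7 : dis q k ((T q k)^[b] x) ((T q k)^[b] y) 1 = 1 := by
        unfold dis
        rw [Finset.sum_range_one, if_neg]
        exact h4
      omega
  have run : ∀ N a : ℕ, a ≤ N → (∀ i, a ≤ i → i < N → (T q k)^[i] x % 2 = (T q k)^[i] y % 2) →
      (N : ℝ) ≤ a + 1 + (c0 + ρ * a) := by
    intro N a haN h
    have h1 := run_le hq hk (N - a) ((T q k)^[a] x) ((T q k)^[a] y) (hne a) (by
      intro i hi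
      rw [← Function.iterate_add_apply, ← Function.iterate_add_apply]
      exact h (i + a) (by omega) (by omega))
    rw [Nat.cast_sub haN] at h1
    linarith [hH a]
  induction D with
  | zero =>
    intro N hN
    obtain ⟨a, haN, h1, h2⟩ := split N
    rcases h2 with h2 | ⟨b, -, h3⟩
    · have h4 := run N a haN h1
      rw [h2] at h4
      have e : E / ρ * ((1 + ρ) ^ (0 + 1) - 1) = E := by field_simp; ring
      rw [e, hE]
      push_cast at h4
      linarith
    · omega
  | succ D ih =>
    intro N hN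
    obtain ⟨a, haN, h1, h2⟩ := split N
    have hpow : 1 ≤ (1 + ρ) ^ (D + 1) := one_le_pow₀ (by linarith)
    have e2 : E / ρ * ((1 + ρ) ^ (D + 1 + 1) - 1) =
        (1 + ρ) * (E / ρ * ((1 + ρ) ^ (D + 1) - 1)) + E := by field_simp; ring
    rcases h2 with h2 | ⟨b, hb, h3⟩
    · have h4 := run N a haN h1
      rw [h2] at h4
      push_cast at h4
      have h5 : 0 ≤ E / ρ * ((1 + ρ) ^ (D + 1) - 1) := by
        apply mul_nonneg (by positivity); linarith
      rw [e2]
      have h6 : 0 ≤ (1 + ρ) * (E / ρ * ((1 + ρ) ^ (D + 1) - 1)) := by positivity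
      rw [hE]
      rw [hE] at h6
      linarith
    · have h4 := run N a haN h1
      have h5 := ih b (by omega)
      rw [hb] at h4
      push_cast at h4
      rw [e2]
      have h6 : (1 + ρ) * (b : ℝ) ≤ (1 + ρ) * (E / ρ * ((1 + ρ) ^ (D + 1) - 1)) :=
        mul_le_mul_of_nonneg_left h5 (by linarith)
      rw [hE] at h6 ⊢
      linarith

/-- the logarithmic form -/
lemma log_of_pow {ρ E : ℝ} (hρ : 0 < ρ) (hE : 0 < E) {N D : ℕ} (hN : 1 ≤ N)
    (h : (N : ℝ) ≤ E * ((1 + ρ) ^ (D + 1) - 1)) :
    Real.log N ≤ D * Real.log (1 + ρ) + (Real.log (1 + ρ) + Real.log E) := by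
  have h1 : (N : ℝ) ≤ E * (1 + ρ) ^ (D + 1) := by nlinarith
  have hN0 : (0 : ℝ) < N := by exact_mod_cast hN
  have h2 := Real.log_le_log hN0 h1
  rw [Real.log_mul hE.ne' (by positivity), Real.log_pow] at h2
  push_cast at h2
  linarith

/-- **Pieces of linear complexity and the rate of growth.** -/
lemma pieces_growth {q k : ℤ} {x : ℤ} {a0 s0 : ℝ} (ha0 : 0 ≤ a0) (P : List Bool → Prop)
    (hP : ∀ (a L : ℕ), P (par q k ((T q k)^[a] x) L) →
      (∀ i < L, ∀ j < L, (T q k)^[i] ((T q k)^[a] x) = (T q k)^[j] ((T q k)^[a] x) → i = j) →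
      (L : ℝ) ≤ a0 * (a + s0))
    (hinj : ∀ i j : ℕ, (T q k)^[i] x = (T q k)^[j] x → i = j) (W : List (List Bool)) :
    ∀ (a N : ℕ), W.flatten = par q k ((T q k)^[a] x) N → (∀ u ∈ W, P u) →
      (N : ℝ) + a + s0 ≤ (1 + a0) ^ W.length * (a + s0) := by
  induction W with
  | nil =>
    intro a N hW _
    have h0 : N = 0 := by
      have h1 := congrArg List.length hW
      rw [par_length] at h1
      simpa using h1.symm
    subst h0
    simp
  | cons u W ih =>
    intro a N hW hlow
    set L := u.length with hL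
    have hlen := congrArg List.length hW
    rw [par_length, List.flatten_cons, List.length_append, ← hL] at hlen
    set N' := W.flatten.length with hN'
    rw [← hlen, par_add, List.flatten_cons] at hW
    obtain ⟨h1, h2⟩ := List.append_inj hW (by rw [par_length])
    have h3 := hP a L (by rw [← h1]; exact hlow u (by simp)) (by
      intro i _ j _ he
      rw [← Function.iterate_add_apply, ← Function.iterate_add_apply] at he
      have := hinj _ _ he
      omega)
    rw [← Function.iterate_add_apply] at h2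
    have h4 := ih (L + a) N' h2 (fun v hv => hlow v (by simp [hv]))
    rw [List.length_cons, ← hlen]
    push_cast at h4 ⊢
    have hp : 0 ≤ (1 + a0) ^ W.length := by positivity
    calc (L : ℝ) + N' + a + s0 = N' + (L + a) + s0 := by ring
      _ ≤ (1 + a0) ^ W.length * (L + a + s0) := h4
      _ ≤ (1 + a0) ^ W.length * ((1 + a0) * (a + s0)) :=
          mul_le_mul_of_nonneg_left (by linarith) hp
      _ = (1 + a0) ^ (W.length + 1) * (a + s0) := by ring

end Pool.Agent.Y780.Cz
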